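import Mathlib

/-! Chains meeting at most `κ` dense sets. -/

set_option linter.unusedSectionVars false

namespace Pool.Agent.H97Tau

open Cardinal Ordinal

theorem exists_chain {κ : Cardinal.{0}} (hκ : ℵ₀ < κ) {P : Type} [Nonempty P] (le : P → P → Prop)
    (hrefl : ∀ p, le p p)
    (Sz : Cardinal.{0} → P → Prop) (hmono : ∀ a b p, a ≤ b → Sz a p → Sz b p)
    (hlow : ∀ μ : Cardinal.{0}, ℵ₀ ≤ μ → μ < κ → ∀ (J : Type) (f : J → P), #J ≤ μ →
      (∀ i j, le (f i) (f j) ∨ le (f j) (f i)) → (∀ j, Sz μ (f j)) →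
      ∃ q, Sz μ q ∧ ∀ j, le q (f j))
    (htrans : ∀ p q r, le p q → le q r → le p r)
    {ι : Type} (hι : #ι ≤ κ) (D : ι → P → Prop)
    (hD : ∀ i, ∀ μ : Cardinal.{0}, ℵ₀ ≤ μ → μ < κ → ∀ p, Sz μ p → ∃ q, Sz μ q ∧ le q p ∧ D i q) :
    ∃ G : ι → P, (∀ i, D i (G i)) ∧ ∀ i j, le (G i) (G j) ∨ le (G j) (G i) := by
  classical
  obtain ⟨r, wo, hr⟩ := Cardinal.exists_ord_eq ι
  have hcount : ∀ i, #{j | r j i} < κ := by
    intro i
    have h1 : #{j | r j i} = (typein r i).card := (Ordinal.card_typein (r := r) i).symm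
    have h2 : typein r i < (#ι).ord := by rw [hr]; exact typein_lt_type r i
    have h3 : #{j | r j i} < #ι := by rw [h1]; exact Cardinal.lt_ord.1 h2
    exact lt_of_lt_of_le h3 hι
  let μ : ι → Cardinal.{0} := fun i => max ℵ₀ #{j | r j i}
  have hμ : ∀ i, ℵ₀ ≤ μ i := fun i => le_max_left _ _
  have hμ2 : ∀ i, μ i < κ := fun i => max_lt hκ (hcount i)
  have hμ3 : ∀ i j, r j i → μ j ≤ μ i := by
    intro i j hij
    refine max_le_max le_rfl (Cardinal.mk_le_mk_of_subset ?_)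
    intro k hk
    exact trans_of r hk hij
  have wf : WellFounded r := wo.wf
  let F : (i : ι) → ((j : ι) → r j i → P) → P := fun i ih =>
    if h : ∃ q, Sz (μ i) q ∧ (∀ j (hj : r j i), le q (ih j hj)) ∧ D i q then h.choose
    else Classical.arbitrary P
  let G : ι → P := wf.fix F
  have hG : ∀ i, G i = F i (fun j _ => G j) := fun i => wf.fix_eq F i
  have key : ∀ i, Sz (μ i) (G i) ∧ (∀ j, r j i → le (G i) (G j)) ∧ D i (G i) := by
    intro i
    induction i using wf.induction with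
    | _ i ih =>
      obtain ⟨q0, hq0s, hq0⟩ := hlow (μ i) (hμ i) (hμ2 i) {j | r j i} (fun j => G j)
        (le_max_right _ _) (by
          rintro ⟨j, hj⟩ ⟨k, hk⟩
          rcases trichotomous_of r j k with h | h | h
          · exact Or.inr ((ih k hk).2.1 j h)
          · subst h; exact Or.inl (hrefl _)
          · exact Or.inl ((ih j hj).2.1 k h)) (by
          rintro ⟨j, hj⟩
          exact hmono _ _ _ (hμ3 i j hj) (ih j hj).1)
      obtain ⟨q, hqs, hq, hDq⟩ := hD i (μ i) (hμ i) (hμ2 i) q0 hq0s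
      have hex : ∃ q, Sz (μ i) q ∧ (∀ j (_ : r j i), le q (G j)) ∧ D i q :=
        ⟨q, hqs, fun j hj => htrans _ _ _ hq (hq0 ⟨j, hj⟩), hDq⟩
      have h1 : G i = hex.choose := by
        rw [hG]
        exact dif_pos hex
      rw [h1]
      exact hex.choose_spec
  refine ⟨G, fun i => (key i).2.2, fun i j => ?_⟩
  rcases trichotomous_of r i j with h | h | h
  · exact Or.inr ((key j).2.1 i h)
  · rw [h]; exact Or.inl (hrefl _)
  · exact Or.inl ((key i).2.1 j h)

end Pool.Agent.H97Tau
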