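import Pool.Agent.H97Tau.Phase2
import Pool.Agent.H97Tau.Chain

/-! Conditions and dense sets. -/

set_option linter.unusedSectionVars false

namespace Pool.Agent.H97Tau

open Filter Set
open scoped Cardinal

/-- almost inclusion -/
def Al (z w : Set ℕ) : Prop := ∃ N, ∀ x ≥ N, x ∈ z → x ∈ w

theorem Al.trans {a b c : Set ℕ} (h1 : Al a b) (h2 : Al b c) : Al a c := by
  obtain ⟨N, hN⟩ := h1
  obtain ⟨M, hM⟩ := h2
  exact ⟨max N M, fun x hx h => hM x (le_trans (le_max_right _ _) hx)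
    (hN x (le_trans (le_max_left _ _) hx) h)⟩

theorem Aeq.al {a b : Set ℕ} (h : Aeq a b) : Al a b := by
  obtain ⟨N, hN⟩ := h
  exact ⟨N, fun x hx => (hN x hx).1⟩

theorem Aeq.symm {a b : Set ℕ} (h : Aeq a b) : Aeq b a := by
  obtain ⟨N, hN⟩ := h
  exact ⟨N, fun x hx => (hN x hx).symm⟩

theorem Aeq.refl (a : Set ℕ) : Aeq a a := ⟨0, fun _ _ => Iff.rfl⟩

theorem LeS.al {b' b : ℕ → Finset ℕ} (h : LeS b' b) : Al (un b' univ) (un b univ) := by
  obtain ⟨k0, h⟩ := h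
  refine ⟨(Finset.range k0).sup (fun i => (b' i).sup id) + 1, fun x hx hx2 => ?_⟩
  obtain ⟨k, -, hk⟩ := hx2
  have hkk : k0 ≤ k := by
    by_contra hcon
    push Not at hcon
    have h6 : x ≤ (b' k).sup id := Finset.le_sup (f := id) hk
    have h7 : (b' k).sup id ≤ (Finset.range k0).sup (fun i => (b' i).sup id) :=
      Finset.le_sup (f := fun i => (b' i).sup id) (Finset.mem_range.2 hcon)
    omega
  obtain ⟨Z, -, hZ⟩ := h k hkk
  rw [hZ] at hk
  obtain ⟨i, -, hi⟩ := Finset.mem_biUnion.1 hk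
  exact ⟨i, trivial, hi⟩

/-- conditions -/
structure Cond where
  /-- the block sequence -/
  b : ℕ → Finset ℕ
  blk : Blk b
  /-- the elements chosen so far -/
  O : Set (Set ℕ)
  lin : ∀ z ∈ O, ∀ w ∈ O, Al z w ∨ Al w z
  below : ∀ z ∈ O, Al (un b univ) z

/-- the order -/
def Cond.le (q p : Cond) : Prop := LeS q.b p.b ∧ p.O ⊆ q.O ∧ ∀ z ∈ q.O, z ∉ p.O → Sub p.b z

theorem Cond.le_refl (p : Cond) : p.le p := ⟨LeS.refl, subset_rfl, fun _ h h' => absurd h h'⟩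

theorem Cond.le_trans (p q r : Cond) (h1 : p.le q) (h2 : q.le r) : p.le r := by
  refine ⟨LeS.trans p.blk h1.1 h2.1, h2.2.1.trans h1.2.1, fun z hz hzr => ?_⟩
  by_cases hzq : z ∈ q.O
  · exact h2.2.2 z hzq hzr
  · exact Sub.mono q.blk h2.1 (h1.2.2 z hz hzq)

/-- size restriction -/
def Cond.Sz (μ : Cardinal.{0}) (p : Cond) : Prop := #p.O ≤ μ

theorem Cond.low {κ : Cardinal.{0}} (hPI : PI κ) (hκ : ℵ₀ < κ) (μ : Cardinal.{0}) (hμ : ℵ₀ ≤ μ)
    (hμκ : μ < κ) (J : Type) (f : J → Cond) (hJ : #J ≤ μ)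
    (hch : ∀ i j, (f i).le (f j) ∨ (f j).le (f i)) (hs : ∀ j, (f j).Sz μ) :
    ∃ q : Cond, q.Sz μ ∧ ∀ j, q.le (f j) := by
  obtain ⟨c, hc, hc2⟩ := lower_bound hPI hκ (fun j => (f j).b) (fun j => (f j).blk)
    (fun i j => (hch i j).imp (fun h => h.1) (fun h => h.1)) (lt_of_le_of_lt hJ hμκ)
  have hlin : ∀ z ∈ ⋃ j, (f j).O, ∀ w ∈ ⋃ j, (f j).O, Al z w ∨ Al w z := by
    intro z hz w hw
    obtain ⟨n, hn⟩ := mem_iUnion.1 hz
    obtain ⟨m, hm⟩ := mem_iUnion.1 hw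
    rcases hch n m with h | h
    · exact (f n).lin z hn w (h.2.1 hm)
    · exact (f m).lin z (h.2.1 hn) w hm
  have hbelow : ∀ z ∈ ⋃ j, (f j).O, Al (un c univ) z := by
    intro z hz
    obtain ⟨n, hn⟩ := mem_iUnion.1 hz
    exact (hc2 n).al.trans ((f n).below z hn)
  refine ⟨⟨c, hc, ⋃ j, (f j).O, hlin, hbelow⟩, ?_, fun n => ?_⟩
  · show #(⋃ j, (f j).O) ≤ μ
    refine (Cardinal.mk_iUnion_le (fun j => (f j).O)).trans ?_
    have h1 : ⨆ j, #((f j).O) ≤ μ := ciSup_le' fun j => hs j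
    exact (mul_le_mul' hJ h1).trans (Cardinal.mul_eq_self hμ).le
  · refine ⟨hc2 n, subset_iUnion (fun n => (f n).O) n, fun z hz hzn => ?_⟩
    obtain ⟨m, hm⟩ := mem_iUnion.1 hz
    rcases hch m n with hmn | hmn
    · exact hmn.2.2 z hm hzn
    · exact absurd (hmn.2.1 hm) hzn

/-- the dense set attached to a sequence of open sets -/
def DU (U : ℕ → Set (Set ℕ)) (p : Cond) : Prop :=
  (∃ F : Set (Set ℕ), F.Finite ∧ F ⊆ p.O ∧ {n | F ⊆ U n}.Finite) ∨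
  ∃ m : ℕ → ℕ, StrictMono m ∧ (∀ o ∈ p.O, ∃ K, ∀ k ≥ K, o ∈ U (m k)) ∧
    (∀ z, Sub p.b z → {k | z ∈ U (m k)}.Infinite) ∧
    ∀ z w, Sub p.b z → Sub p.b w → Al z w →
      (∃ K, ∀ k ≥ K, z ∈ U (m k) → w ∈ U (m k)) ∨ ∃ K, ∀ k ≥ K, w ∈ U (m k) → z ∈ U (m k)

/-- the dense set attached to a function -/
def DF (f : ℕ → ℕ) (p : Cond) : Prop := ∃ z ∈ p.O, {n | ∀ y, n < y → y ≤ f n → y ∉ z}.Infinite

theorem countable_aeq (x : Set ℕ) : {z | Aeq z x}.Countable := by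
  classical
  let f : ℕ × Finset ℕ → Set ℕ := fun q => {y | (y < q.1 ∧ y ∈ q.2) ∨ (q.1 ≤ y ∧ y ∈ x)}
  refine (countable_range f).mono ?_
  rintro z ⟨N, hN⟩
  refine ⟨(N, (Finset.range N).filter (fun y => y ∈ z)), ?_⟩
  ext y
  simp only [f, Set.mem_ofPred_eq, Finset.mem_filter, Finset.mem_range]
  constructor
  · rintro (⟨-, -, h⟩ | ⟨h1, h2⟩)
    · exact h
    · exact (hN y h1).2 h2
  · intro h
    rcases lt_or_ge y N with h1 | h1
    · exact Or.inl ⟨h1, h1, h⟩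
    · exact Or.inr ⟨h1, (hN y h1).1 h⟩

theorem DU_dense {κ : Cardinal.{0}} (hPI : PI κ) (hκ : ℵ₀ < κ) {U : ℕ → Set (Set ℕ)}
    (hU : ∀ n, Opn (U n)) (μ : Cardinal.{0}) (hμ : ℵ₀ ≤ μ) (hμκ : μ < κ) (p : Cond) (hp : p.Sz μ) :
    ∃ q : Cond, q.Sz μ ∧ Cond.le q p ∧ DU U q := by
  classical
  set x := un p.b univ with hx
  let O1 : Set (Set ℕ) := p.O ∪ {z | Aeq z x}
  have hcnt : #O1 ≤ μ := by
    refine (Cardinal.mk_union_le _ _).trans ?_
    have h1 : #{z | Aeq z x} ≤ ℵ₀ := (countable_aeq x).le_aleph0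
    exact (add_le_add hp (h1.trans hμ)).trans (Cardinal.add_eq_self hμ).le
  have hlin : ∀ z ∈ O1, ∀ w ∈ O1, Al z w ∨ Al w z := by
    rintro z (hz | hz) w (hw | hw)
    · exact p.lin z hz w hw
    · exact Or.inr ((Aeq.al hw).trans (p.below z hz))
    · exact Or.inl ((Aeq.al hz).trans (p.below w hw))
    · exact Or.inl ((Aeq.al hz).trans (Aeq.al (Aeq.symm hw)))
  have hbelow : ∀ z ∈ O1, Al x z := by
    rintro z (hz | hz)
    · exact p.below z hz
    · exact Aeq.al (Aeq.symm hz)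
  have hsub : ∀ z ∈ O1, z ∉ p.O → Sub p.b z := by
    rintro z (hz | hz) hz2
    · exact absurd hz hz2
    · exact ⟨univ, infinite_univ, hz⟩
  by_cases hK : ∃ F : Set (Set ℕ), F.Finite ∧ F ⊆ O1 ∧ {n | F ⊆ U n}.Finite
  · exact ⟨⟨p.b, p.blk, O1, hlin, hbelow⟩, hcnt,
      ⟨LeS.refl, subset_union_left, hsub⟩, Or.inl hK⟩
  · have hcov : ∀ F : Set (Set ℕ), F.Finite → F ⊆ O1 → {n | F ⊆ U n}.Infinite :=
      fun F h1 h2 h3 => hK ⟨F, h1, h2, h3⟩
    obtain ⟨n, M, c, hn, hM, hc, hcM, hcF, hP, ho2⟩ := phase1 hPI hκ p.blk hU (O := O1)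
      (lt_of_le_of_lt hcnt hμκ) (fun z hz => Or.inr hz) hcov
    obtain ⟨T, m, hT, hm, hmn, hz⟩ := phase2 hU hn hM hc hcM hP
    let b' : ℕ → Finset ℕ := fun k => (T k).biUnion c
    have hb' : Blk b' := by
      refine ⟨fun k => ?_, fun i j hij y hy w hw => ?_⟩
      · obtain ⟨j, hj⟩ := hT.1 k
        obtain ⟨y, hy⟩ := hc j
        exact ⟨y, Finset.mem_biUnion.2 ⟨j, hj, hy⟩⟩
      · obtain ⟨u, hu, hyu⟩ := Finset.mem_biUnion.1 hy
        obtain ⟨v, hv, hwv⟩ := Finset.mem_biUnion.1 hw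
        have h1 := hT.2 i j hij u hu v hv
        have h2 := (hcM u y hyu).2
        have h3 := (hcM v w hwv).1
        have h4 : M (u + 1) ≤ M v := hM.monotone h1
        omega
    have hLe : LeS b' p.b := by
      refine ⟨0, fun k _ => ?_⟩
      choose Y hY hY2 using hcF
      refine ⟨(T k).biUnion Y, ?_, ?_⟩
      · obtain ⟨j, hj⟩ := hT.1 k
        obtain ⟨i, hi⟩ := hY j
        exact ⟨i, Finset.mem_biUnion.2 ⟨j, hj, hi⟩⟩
      · rw [Finset.biUnion_biUnion]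
        exact Finset.biUnion_congr rfl fun j _ => hY2 j
    have hb'le : ∀ k, ∀ y ∈ b' k, k ≤ y := fun k y hy => hb'.le hy
    refine ⟨⟨b', hb', O1, hlin, fun z hz => hLe.al.trans (hbelow z hz)⟩, hcnt,
      ⟨hLe, subset_union_left, hsub⟩, Or.inr ⟨m, hm, ?_, ?_, ?_⟩⟩
    · intro z hz
      obtain ⟨a, ha⟩ := ho2 z hz
      refine ⟨a, fun k hk => ?_⟩
      obtain ⟨j, hj, hj2⟩ := hmn k
      rw [hj2]
      exact ha j (le_trans hk hj)
    · intro z hzS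
      obtain ⟨e, Z, hZ, -, K, hK⟩ := hz z hzS
      refine (hZ.sdiff (Set.finite_lt_nat K)).mono ?_
      rintro k ⟨hk1, hk2⟩
      exact (hK k (not_lt.1 hk2)).2 (Or.inl hk1)
    · intro z w hzS hwS hzw
      obtain ⟨e, Z, hZ, ⟨N, hN⟩, K, hK⟩ := hz z hzS
      obtain ⟨e', Z', hZ', ⟨N', hN'⟩, K', hK'⟩ := hz w hwS
      by_cases he' : e'
      · exact Or.inl ⟨K', fun k hk _ => (hK' k hk).2 (Or.inr he')⟩
      by_cases he : e
      · exact Or.inr ⟨K, fun k hk _ => (hK k hk).2 (Or.inr he)⟩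
      obtain ⟨R, hR⟩ := hzw
      refine Or.inl ⟨max (max K K') (max R (max N N')), fun k hk hkz => ?_⟩
      have k1 : K ≤ k := by omega
      have k2 : K' ≤ k := by omega
      have k3 : R ≤ k := by omega
      have k4 : N ≤ k := by omega
      have k5 : N' ≤ k := by omega
      have hkZ : k ∈ Z := by
        rcases (hK k k1).1 hkz with h | h
        · exact h
        · exact absurd h he
      rw [hK' k k2]
      left
      obtain ⟨y, hy⟩ := hb'.1 k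
      have hky := hb'le k y hy
      have h1 : y ∈ z := (hN y (le_trans k4 hky)).2 ⟨k, hkZ, hy⟩
      have h2 := hR y (le_trans k3 hky) h1
      obtain ⟨k', hk', hy'⟩ := (hN' y (le_trans k5 hky)).1 h2
      have h3 : k = k' := hb'.inj hy hy'
      rw [h3]; exact hk'

theorem DF_dense (f : ℕ → ℕ) (μ : Cardinal.{0}) (hμ : ℵ₀ ≤ μ) (p : Cond) (hp : p.Sz μ) :
    ∃ q : Cond, q.Sz μ ∧ Cond.le q p ∧ DF f q := by
  classical
  let k : ℕ → ℕ := fun n => Nat.rec 0 (fun _ k => max (k + 1) (f ((p.b k).sup id) + 1)) n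
  have hk : ∀ n, k (n + 1) = max (k n + 1) (f ((p.b (k n)).sup id) + 1) := fun n => rfl
  have hkm : StrictMono k := strictMono_nat_of_lt_succ fun n => by
    rw [hk]; exact lt_of_lt_of_le (Nat.lt_succ_self _) (le_max_left _ _)
  let bs : ℕ → Finset ℕ := fun i => p.b (k i)
  have hbs : Blk bs := ⟨fun i => p.blk.1 _, fun i j hij => p.blk.2 _ _ (hkm hij)⟩
  set x := un bs univ with hx
  have hLe : LeS bs p.b :=
    ⟨0, fun i _ => ⟨{k i}, Finset.singleton_nonempty _, by rw [Finset.singleton_biUnion]⟩⟩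
  have hxz : ∀ z ∈ p.O, Al x z := fun z hz => hLe.al.trans (p.below z hz)
  have hlin : ∀ z ∈ p.O ∪ {x}, ∀ w ∈ p.O ∪ {x}, Al z w ∨ Al w z := by
    rintro z (hz | hz) w (hw | hw)
    · exact p.lin z hz w hw
    · rw [mem_singleton_iff.1 hw]; exact Or.inr (hxz z hz)
    · rw [mem_singleton_iff.1 hz]; exact Or.inl (hxz w hw)
    · rw [mem_singleton_iff.1 hz, mem_singleton_iff.1 hw]; exact Or.inl (Aeq.al (Aeq.refl x))
  have hbelow : ∀ z ∈ p.O ∪ {x}, Al (un bs univ) z := by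
    rintro z (hz | hz)
    · exact hxz z hz
    · rw [mem_singleton_iff.1 hz]; exact Aeq.al (Aeq.refl x)
  refine ⟨⟨bs, hbs, p.O ∪ {x}, hlin, hbelow⟩, ?_, ⟨hLe, subset_union_left, ?_⟩,
    ⟨x, Or.inr rfl, ?_⟩⟩
  · show #(p.O ∪ {x} : Set (Set ℕ)) ≤ μ
    refine (Cardinal.mk_union_le _ _).trans ?_
    have h1 : #({x} : Set (Set ℕ)) ≤ ℵ₀ := (countable_singleton x).le_aleph0
    exact (add_le_add hp (h1.trans hμ)).trans (Cardinal.add_eq_self hμ).le
  · rintro z (hz | hz) hz2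
    · exact absurd hz hz2
    · rw [mem_singleton_iff.1 hz]
      refine ⟨range k, Set.infinite_range_of_injective hkm.injective, 0, fun y _ => ?_⟩
      constructor
      · rintro ⟨i, -, hi⟩
        exact ⟨k i, ⟨i, rfl⟩, hi⟩
      · rintro ⟨_, ⟨i, rfl⟩, hi⟩
        exact ⟨i, trivial, hi⟩
  · rw [Set.infinite_iff_exists_gt]
    intro N
    obtain ⟨w, hw⟩ := p.blk.1 (k (N + 1))
    refine ⟨(p.b (k (N + 1))).sup id, ?_, ?_⟩
    · rintro y hy1 hy2 ⟨l, -, hl⟩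
      rcases lt_or_ge (N + 1) l with h | h
      · have h1 : k (N + 1 + 1) ≤ k l := hkm.monotone h
        have h2 : f ((p.b (k (N + 1))).sup id) + 1 ≤ k (N + 1 + 1) := by
          rw [hk (N + 1)]; exact le_max_right _ _
        have h3 := p.blk.le hl
        omega
      · rcases h.lt_or_eq with h' | h'
        · have h1 := hbs.2 l (N + 1) h' y hl w hw
          have h2 : w ≤ (p.b (k (N + 1))).sup id := Finset.le_sup (f := id) hw
          omega
        · rw [h'] at hl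
          have h2 : y ≤ (p.b (k (N + 1))).sup id := Finset.le_sup (f := id) hl
          omega
    · have h1 := p.blk.le hw
      have h2 : w ≤ (p.b (k (N + 1))).sup id := Finset.le_sup (f := id) hw
      have h3 : N + 1 ≤ k (N + 1) := hkm.le_apply
      omega

theorem exists_family {κ : Cardinal.{0}} (hPI : PI κ) (hκ : ℵ₀ < κ) {W : Type} (hW : #W ≤ κ)
    (U : W → ℕ → Set (Set ℕ)) (hU : ∀ w n, Opn (U w n)) {Ξ : Type} (hΞ : #Ξ ≤ κ)
    (f : Ξ → ℕ → ℕ) (hf : ∀ g : ℕ → ℕ, ∃ ξ N, ∀ n ≥ N, g n ≤ f ξ n) : ∃ X : Set (Set ℕ),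
    (∀ w, (∀ F : Set (Set ℕ), F.Finite → F ⊆ X → {n | F ⊆ U w n}.Infinite) →
      ∃ m : ℕ → ℕ, StrictMono m ∧ (∀ z ∈ X, {k | z ∈ U w (m k)}.Infinite) ∧
        ∀ z ∈ X, ∀ y ∈ X, (∃ K, ∀ k ≥ K, z ∈ U w (m k) → y ∈ U w (m k)) ∨
          ∃ K, ∀ k ≥ K, y ∈ U w (m k) → z ∈ U w (m k)) ∧
    (∀ z ∈ X, z.Infinite) ∧ (∀ z ∈ X, ∀ y ∈ X, Al z y ∨ Al y z) ∧
    ∀ a : Set ℕ, a.Infinite → ∃ z ∈ X, (a \ z).Infinite := by
  classical
  let ι := W ⊕ Ξ
  have hι : #ι ≤ κ := by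
    show #(W ⊕ Ξ) ≤ κ
    rw [Cardinal.mk_sum, Cardinal.lift_id, Cardinal.lift_id]
    exact (add_le_add hW hΞ).trans (Cardinal.add_eq_self hκ.le).le
  have hne : Nonempty Cond := ⟨⟨fun i => {i}, ⟨fun i => Finset.singleton_nonempty i,
    fun i j hij x hx y hy => by
      rw [Finset.mem_singleton.1 hx, Finset.mem_singleton.1 hy]; exact hij⟩, ∅,
    fun z hz => absurd hz (notMem_empty z), fun z hz => absurd hz (notMem_empty z)⟩⟩
  let D : ι → Cond → Prop := fun i p => Sum.elim (fun c => DU (U c) p) (fun a => DF (f a) p) i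
  obtain ⟨G, hG, hch⟩ := exists_chain hκ Cond.le Cond.le_refl Cond.Sz
    (fun a b p h1 h2 => le_trans h2 h1) (Cond.low hPI hκ) Cond.le_trans hι D (by
    intro i μ hμ hμκ p hp
    rcases i with c | a
    · exact DU_dense hPI hκ (hU c) μ hμ hμκ p hp
    · exact DF_dense (f a) μ hμ p hp)
  have hpair : ∀ z ∈ ⋃ i, (G i).O, ∀ y ∈ ⋃ i, (G i).O, Al z y ∨ Al y z := by
    intro z hz y hy
    obtain ⟨i, hi⟩ := mem_iUnion.1 hz
    obtain ⟨j, hj⟩ := mem_iUnion.1 hy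
    rcases hch i j with h1 | h1
    · exact (G i).lin z hi y (h1.2.1 hj)
    · exact (G j).lin z (h1.2.1 hi) y hj
  refine ⟨⋃ i, (G i).O, ?_, ?_, hpair, ?_⟩
  · intro c hcov
    have hD : DU (U c) (G (Sum.inl c)) := hG (Sum.inl c)
    rcases hD with ⟨F, hF, hFO, hfi⟩ | ⟨m, hm, h1, h2, h3⟩
    · exact absurd hfi (hcov F hF (hFO.trans (subset_iUnion (fun i => (G i).O) _)))
    · set p := G (Sum.inl c) with hp
      have hnew : ∀ z ∈ ⋃ i, (G i).O, z ∉ p.O → Sub p.b z := by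
        intro z hz hzp
        obtain ⟨j, hj⟩ := mem_iUnion.1 hz
        rcases hch (Sum.inl c) j with h4 | h4
        · exact absurd (h4.2.1 hj) hzp
        · exact h4.2.2 z hj hzp
      refine ⟨m, hm, ?_, ?_⟩
      · intro z hz
        by_cases hzp : z ∈ p.O
        · obtain ⟨K, hK⟩ := h1 z hzp
          rw [Set.infinite_iff_exists_gt]
          intro n
          exact ⟨max K (n + 1), hK _ (le_max_left _ _),
            lt_of_lt_of_le (Nat.lt_succ_self n) (le_max_right _ _)⟩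
        · exact h2 z (hnew z hz hzp)
      · intro z hz w hw
        by_cases hzp : z ∈ p.O
        · obtain ⟨K, hK⟩ := h1 z hzp
          exact Or.inr ⟨K, fun k hk _ => hK k hk⟩
        by_cases hwp : w ∈ p.O
        · obtain ⟨K, hK⟩ := h1 w hwp
          exact Or.inl ⟨K, fun k hk _ => hK k hk⟩
        rcases hpair z hz w hw with h | h
        · exact h3 z w (hnew z hz hzp) (hnew w hw hwp) h
        · exact (h3 w z (hnew w hw hwp) (hnew z hz hzp) h).symm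
  · intro z hz
    obtain ⟨i, hi⟩ := mem_iUnion.1 hz
    obtain ⟨N, hN⟩ := (G i).below z hi
    refine ((un_infinite (G i).blk infinite_univ).sdiff (Set.finite_lt_nat N)).mono ?_
    rintro k ⟨hk1, hk2⟩
    exact hN k (not_lt.1 hk2) hk1
  · intro a ha
    have hnx : ∀ n, ∃ y ∈ a, n < y := fun n => ha.exists_gt n
    choose g hg1 hg2 using hnx
    obtain ⟨ξ, N, hξ⟩ := hf g
    obtain ⟨z, hz, h⟩ := hG (Sum.inr ξ)
    refine ⟨z, mem_iUnion.2 ⟨_, hz⟩, ?_⟩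
    rw [Set.infinite_iff_exists_gt]
    intro M
    obtain ⟨n, hn, hn2⟩ := h.exists_gt (max M N)
    have h1 : M < n := lt_of_le_of_lt (le_max_left _ _) hn2
    have h2 : N < n := lt_of_le_of_lt (le_max_right _ _) hn2
    exact ⟨g n, ⟨hg1 n, hn (g n) (hg2 n) (hξ n h2.le)⟩, lt_trans h1 (hg2 n)⟩

end Pool.Agent.H97Tau
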