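import Mathlib

/-! Pseudo-intersections. -/

set_option linter.unusedSectionVars false

namespace Pool.Agent.H97Tau

open Filter Set
open scoped Cardinal

/-- every family of fewer than `κ` subsets of `ℕ` all of whose finite intersections are infinite
has an infinite pseudo-intersection -/
def PI (κ : Cardinal.{0}) : Prop := ∀ (J : Type) (A : J → Set ℕ), #J < κ →
  (∀ F : Finset J, {n | ∀ j ∈ F, n ∈ A j}.Infinite) →
  ∃ a : Set ℕ, a.Infinite ∧ ∀ j, (a \ A j).Finite

theorem PI.trans {κ : Cardinal.{0}} (h : PI κ) {Q : Type} [Denumerable Q] {J : Type}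
    (A : J → Set Q) (hJ : #J < κ) (hA : ∀ F : Finset J, {q | ∀ j ∈ F, q ∈ A j}.Infinite) :
    ∃ a : Set Q, a.Infinite ∧ ∀ j, (a \ A j).Finite := by
  let e : Q ≃ ℕ := Denumerable.eqv Q
  obtain ⟨a, ha, haA⟩ := h J (fun j => e.symm ⁻¹' (A j)) hJ (by
    intro F
    have h1 := (hA F).image (e.injective.injOn)
    refine h1.mono ?_
    rintro _ ⟨q, hq, rfl⟩ j hj
    show e.symm (e q) ∈ A j
    rw [Equiv.symm_apply_apply]
    exact hq j hj)
  refine ⟨e ⁻¹' a, ?_, fun j => ?_⟩
  · have h1 : e ⁻¹' a = e.symm '' a := (e.symm.image_eq_preimage_symm a).symm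
    rw [h1]
    exact ha.image e.symm.injective.injOn
  · refine ((haA j).preimage e.injective.injOn).subset ?_
    rintro q ⟨h1, h2⟩
    refine ⟨h1, fun h3 => h2 ?_⟩
    have h4 : e.symm (e q) ∈ A j := h3
    rwa [Equiv.symm_apply_apply] at h4

theorem PI_aleph_one : PI ℵ₁ := by
  classical
  intro J A hJ hA
  have hc : Countable J := by
    rw [← Cardinal.mk_le_aleph0_iff, ← Order.lt_succ_iff, Cardinal.succ_aleph0]
    exact hJ
  by_cases hne : Nonempty J
  · obtain ⟨f, hf⟩ := exists_surjective_nat J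
    have h1 : ∀ n m : ℕ, ∃ x, m < x ∧ ∀ i ≤ n, x ∈ A (f i) := by
      intro n m
      obtain ⟨x, hx, hmx⟩ := (hA ((Finset.range (n + 1)).image f)).exists_gt m
      exact ⟨x, hmx, fun i hi => hx _ (Finset.mem_image_of_mem f
        (Finset.mem_range.2 (Nat.lt_succ_of_le hi)))⟩
    choose x hx1 hx2 using h1
    let a : ℕ → ℕ := fun n => Nat.rec (x 0 0) (fun n p => x (n + 1) p) n
    have ha : ∀ n, a (n + 1) = x (n + 1) (a n) := fun n => rfl
    have hmono : StrictMono a := strictMono_nat_of_lt_succ fun n => by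
      rw [ha]; exact hx1 _ _
    have ha2 : ∀ n, ∀ i ≤ n, a n ∈ A (f i) := by
      intro n i hi
      cases n with
      | zero => exact hx2 0 0 i hi
      | succ n => rw [ha]; exact hx2 _ _ i hi
    refine ⟨range a, infinite_range_of_injective hmono.injective, fun j => ?_⟩
    obtain ⟨i, rfl⟩ := hf j
    refine ((Set.finite_lt_nat i).image a).subset ?_
    rintro _ ⟨⟨n, rfl⟩, h2⟩
    refine ⟨n, ?_, rfl⟩
    by_contra hcon
    exact h2 (ha2 n i (not_lt.1 hcon))
  · exact ⟨univ, infinite_univ, fun j => absurd ⟨j⟩ hne⟩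

theorem PI.max {κ : Cardinal.{0}} (h : PI κ) : PI (max κ ℵ₁) := by
  intro J A hJ hA
  rcases lt_max_iff.1 hJ with h1 | h1
  · exact h J A h1 hA
  · exact PI_aleph_one J A h1 hA

/-- an infinite set of intervals contains an increasing sequence -/
theorem exists_incr {Q : Type} (a : Set Q) (ha : a.Infinite) (P : ℕ → Q → Prop)
    (hP : ∀ N, {q ∈ a | ¬ P N q}.Finite) (r : Q → ℕ) :
    ∃ s : ℕ → Q, (∀ i, s i ∈ a) ∧ ∀ i, P (r (s i)) (s (i + 1)) := by
  classical
  have h1 : ∀ N, ∃ q, q ∈ a ∧ P N q := by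
    intro N
    by_contra hcon
    push Not at hcon
    exact ha ((hP N).subset fun q hq => ⟨hq, hcon q hq⟩)
  choose q hq1 hq2 using h1
  refine ⟨fun n => Nat.rec (q 0) (fun _ p => q (r p)) n, fun i => ?_, fun i => ?_⟩
  · cases i with
    | zero => exact hq1 0
    | succ i => exact hq1 _
  · exact hq2 _

end Pool.Agent.H97Tau
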