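import Pool.Agent.H97Tau.Idem
import Pool.Agent.H97Tau.Pint

/-! Block sequences and almost inclusion. -/

set_option linter.unusedSectionVars false

namespace Pool.Agent.H97Tau

open Filter Set

/-- openness in the power set of `ℕ` -/
def Opn (U : Set (Set ℕ)) : Prop :=
  ∀ z ∈ U, ∃ m : ℕ, ∀ w : Set ℕ, (∀ i < m, (i ∈ w ↔ i ∈ z)) → w ∈ U

/-- the union of the blocks with index in `Z` -/
def un (b : ℕ → Finset ℕ) (Z : Set ℕ) : Set ℕ := {x | ∃ i ∈ Z, x ∈ b i}

/-- equality up to a finite set -/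
def Aeq (z w : Set ℕ) : Prop := ∃ N, ∀ x ≥ N, (x ∈ z ↔ x ∈ w)

/-- `z` is, up to a finite set, the union of infinitely many blocks of `b` -/
def Sub (b : ℕ → Finset ℕ) (z : Set ℕ) : Prop := ∃ Z : Set ℕ, Z.Infinite ∧ Aeq z (un b Z)

/-- finite union of blocks -/
def InFU (b : ℕ → Finset ℕ) (v : Finset ℕ) : Prop := ∃ Z : Finset ℕ, Z.Nonempty ∧ v = Z.biUnion b

/-- almost all blocks of `b'` are finite unions of blocks of `b` -/
def LeS (b' b : ℕ → Finset ℕ) : Prop := ∃ k0, ∀ k ≥ k0, InFU b (b' k)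

theorem Blk.le {b : ℕ → Finset ℕ} (hb : Blk b) {i x : ℕ} (hx : x ∈ b i) : i ≤ x := by
  induction i generalizing x with
  | zero => exact Nat.zero_le _
  | succ n ih =>
    obtain ⟨w, hw⟩ := hb.1 n
    have h1 := hb.2 n (n + 1) (Nat.lt_succ_self n) w hw x hx
    have h2 := ih hw
    omega

theorem Blk.inj {b : ℕ → Finset ℕ} (hb : Blk b) {i j x : ℕ} (hi : x ∈ b i) (hj : x ∈ b j) :
    i = j := by
  rcases lt_trichotomy i j with h | h | h
  · exact absurd (hb.2 i j h x hi x hj) (lt_irrefl _)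
  · exact h
  · exact absurd (hb.2 j i h x hj x hi) (lt_irrefl _)

theorem un_infinite {b : ℕ → Finset ℕ} (hb : Blk b) {Z : Set ℕ} (hZ : Z.Infinite) :
    (un b Z).Infinite := by
  rw [Set.infinite_iff_exists_gt] at *
  intro a
  obtain ⟨i, hi, hai⟩ := hZ a
  obtain ⟨x, hx⟩ := hb.1 i
  exact ⟨x, ⟨i, hi, hx⟩, lt_of_lt_of_le hai (hb.le hx)⟩

theorem LeS.refl {b : ℕ → Finset ℕ} : LeS b b :=
  ⟨0, fun k _ => ⟨{k}, Finset.singleton_nonempty _, by rw [Finset.singleton_biUnion]⟩⟩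

theorem LeS.trans {a b c : ℕ → Finset ℕ} (ha : Blk a) (h1 : LeS a b) (h2 : LeS b c) : LeS a c := by
  classical
  obtain ⟨k1, h1⟩ := h1
  obtain ⟨k2, h2⟩ := h2
  -- beyond `N` the blocks of `b` used have index at least `k2`
  let N := (Finset.range k2).sup (fun i => (b i).sup id) + 1
  refine ⟨max k1 N, fun k hk => ?_⟩
  obtain ⟨Z, hZ, hZ2⟩ := h1 k (le_trans (le_max_left _ _) hk)
  have hkN : N ≤ k := le_trans (le_max_right _ _) hk
  have h3 : ∀ i ∈ Z, ∃ Y : Finset ℕ, (b i).Nonempty → (Y.Nonempty ∧ b i = Y.biUnion c) := by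
    intro i hi
    by_cases hne : (b i).Nonempty
    · have hik : k2 ≤ i := by
        by_contra hcon
        push Not at hcon
        obtain ⟨x, hx⟩ := hne
        have h4 : x ∈ a k := by rw [hZ2]; exact Finset.mem_biUnion.2 ⟨i, hi, hx⟩
        have h5 := ha.le h4
        have h6 : x ≤ (b i).sup id := Finset.le_sup (f := id) hx
        have h7 : (b i).sup id ≤ (Finset.range k2).sup (fun i => (b i).sup id) :=
          Finset.le_sup (f := fun i => (b i).sup id) (Finset.mem_range.2 hcon)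
        omega
      obtain ⟨Y, hY, hY2⟩ := h2 i hik
      exact ⟨Y, fun _ => ⟨hY, hY2⟩⟩
    · exact ⟨∅, fun h => absurd h hne⟩
  choose! Y hY using h3
  let Q := Z.filter (fun i => (b i).Nonempty)
  have hQ : Q.Nonempty := by
    obtain ⟨x, hx⟩ := ha.1 k
    rw [hZ2] at hx
    obtain ⟨i, hi, hxi⟩ := Finset.mem_biUnion.1 hx
    exact ⟨i, Finset.mem_filter.2 ⟨hi, ⟨x, hxi⟩⟩⟩
  refine ⟨Q.biUnion Y, ?_, ?_⟩
  · obtain ⟨i, hi⟩ := hQ
    have hi' := Finset.mem_filter.1 hi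
    obtain ⟨y, hy⟩ := (hY i hi'.1 hi'.2).1
    exact ⟨y, Finset.mem_biUnion.2 ⟨i, hi, hy⟩⟩
  · ext x
    rw [hZ2, Finset.mem_biUnion, Finset.mem_biUnion]
    constructor
    · rintro ⟨i, hi, hx⟩
      have hne : (b i).Nonempty := ⟨x, hx⟩
      have h4 := (hY i hi hne).2
      rw [h4] at hx
      obtain ⟨y, hy, hxy⟩ := Finset.mem_biUnion.1 hx
      exact ⟨y, Finset.mem_biUnion.2 ⟨i, Finset.mem_filter.2 ⟨hi, hne⟩, hy⟩, hxy⟩
    · rintro ⟨y, hy, hxy⟩
      obtain ⟨i, hi, hyi⟩ := Finset.mem_biUnion.1 hy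
      have hi' := Finset.mem_filter.1 hi
      refine ⟨i, hi'.1, ?_⟩
      rw [(hY i hi'.1 hi'.2).2]
      exact Finset.mem_biUnion.2 ⟨y, hyi, hxy⟩

theorem Sub.mono {b' b : ℕ → Finset ℕ} {z : Set ℕ} (hb' : Blk b') (h : LeS b' b)
    (hz : Sub b' z) : Sub b z := by
  classical
  obtain ⟨k0, h⟩ := h
  obtain ⟨Z, hZ, N, hN⟩ := hz
  choose! Y hY hY2 using h
  let Z2 : Set ℕ := {i | ∃ k ∈ Z, k0 ≤ k ∧ i ∈ Y k}
  have hsub : ∀ x, x ∈ un b Z2 ↔ ∃ k ∈ Z, k0 ≤ k ∧ x ∈ b' k := by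
    intro x
    constructor
    · rintro ⟨i, ⟨k, hk, hk0, hi⟩, hx⟩
      refine ⟨k, hk, hk0, ?_⟩
      rw [hY2 k hk0]
      exact Finset.mem_biUnion.2 ⟨i, hi, hx⟩
    · rintro ⟨k, hk, hk0, hx⟩
      rw [hY2 k hk0] at hx
      obtain ⟨i, hi, hx⟩ := Finset.mem_biUnion.1 hx
      exact ⟨i, ⟨k, hk, hk0, hi⟩, hx⟩
  have hinf : (un b Z2).Infinite := by
    have h1 : (un b' (Z \ {k | k < k0})).Infinite :=
      un_infinite hb' (hZ.sdiff (Set.finite_lt_nat k0))
    refine h1.mono ?_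
    rintro x ⟨k, ⟨hk, hk2⟩, hx⟩
    exact (hsub x).2 ⟨k, hk, not_lt.1 hk2, hx⟩
  refine ⟨Z2, ?_, max N ((Finset.range k0).sup (fun i => (b' i).sup id) + 1), ?_⟩
  · intro hfin
    apply hinf
    have : un b Z2 = ⋃ i ∈ Z2, (b i : Set ℕ) := by
      ext x; simp [un]
    rw [this]
    exact hfin.biUnion fun i _ => (b i).finite_toSet
  · intro x hx
    rw [hN x (le_trans (le_max_left _ _) hx), hsub]
    constructor
    · rintro ⟨k, hk, hxk⟩
      refine ⟨k, hk, ?_, hxk⟩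
      by_contra hcon
      push Not at hcon
      have h6 : x ≤ (b' k).sup id := Finset.le_sup (f := id) hxk
      have h7 : (b' k).sup id ≤ (Finset.range k0).sup (fun i => (b' i).sup id) :=
        Finset.le_sup (f := fun i => (b' i).sup id) (Finset.mem_range.2 hcon)
      have h8 := le_trans (le_max_right _ _) hx
      omega
    · rintro ⟨k, hk, -, hxk⟩
      exact ⟨k, hk, hxk⟩

theorem Blk.injective {b : ℕ → Finset ℕ} (hb : Blk b) : Function.Injective b := by
  intro i j h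
  obtain ⟨x, hx⟩ := hb.1 i
  exact hb.inj hx (h ▸ hx)

open scoped Cardinal in
/-- chains of fewer than `κ` block sequences have lower bounds -/
theorem lower_bound {κ : Cardinal.{0}} (h : PI κ) (hκ : ℵ₀ < κ) {J : Type}
    (b : J → ℕ → Finset ℕ) (hb : ∀ j, Blk (b j))
    (hch : ∀ i j, LeS (b i) (b j) ∨ LeS (b j) (b i)) (hJ : #J < κ) :
    ∃ c, Blk c ∧ ∀ j, LeS c (b j) := by
  classical
  by_cases hne : Nonempty J
  swap
  · refine ⟨fun i => {i}, ⟨fun i => Finset.singleton_nonempty i, fun i j hij x hx y hy => ?_⟩,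
      fun j => absurd ⟨j⟩ hne⟩
    rw [Finset.mem_singleton.1 hx, Finset.mem_singleton.1 hy]; exact hij
  obtain ⟨j0⟩ := hne
  let A : J × ℕ → Set (Finset ℕ) := fun q => {v | InFU (b q.1) v ∧ v.Nonempty ∧ ∀ x ∈ v, q.2 ≤ x}
  have hmin : ∀ G : Finset J, G.Nonempty → ∃ j ∈ G, ∀ i ∈ G, LeS (b j) (b i) := by
    intro G hG
    induction hG using Finset.Nonempty.cons_induction with
    | singleton a =>
      exact ⟨a, Finset.mem_singleton_self a, fun i hi => by
        rw [Finset.mem_singleton.1 hi]; exact LeS.refl⟩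
    | cons a G haG hG ih =>
      obtain ⟨j, hj, hj2⟩ := ih
      rcases hch a j with h1 | h1
      · refine ⟨a, Finset.mem_cons_self a G, fun i hi => ?_⟩
        rcases Finset.mem_cons.1 hi with rfl | hi
        · exact LeS.refl
        · exact LeS.trans (hb a) h1 (hj2 i hi)
      · refine ⟨j, Finset.mem_cons_of_mem hj, fun i hi => ?_⟩
        rcases Finset.mem_cons.1 hi with rfl | hi
        · exact h1
        · exact hj2 i hi
  have hJ2 : #(J × ℕ) < κ := by
    rw [Cardinal.mk_prod, Cardinal.lift_id, Cardinal.lift_id, Cardinal.mk_nat]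
    exact Cardinal.mul_lt_of_lt hκ.le hJ hκ
  obtain ⟨a, ha, haA⟩ := h.trans A hJ2 (by
    intro F
    by_cases hF : F.Nonempty
    · obtain ⟨j, -, hj⟩ := hmin (F.image Prod.fst) (hF.image _)
      have h1 : ∀ q : J × ℕ, ∃ k0 : ℕ, q ∈ F → ∀ k ≥ k0, InFU (b q.1) (b j k) := by
        intro q
        by_cases hq : q ∈ F
        · obtain ⟨k0, hk0⟩ := hj q.1 (Finset.mem_image_of_mem _ hq)
          exact ⟨k0, fun _ => hk0⟩
        · exact ⟨0, fun h => absurd h hq⟩
      choose k0 hk0 using h1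
      let K := F.sup (fun q => max (k0 q) q.2)
      have hinf : (b j '' {k | K ≤ k}).Infinite := by
        apply Set.Infinite.image (hb j).injective.injOn
        rw [Set.infinite_iff_exists_gt]
        exact fun n => ⟨max K (n + 1), le_max_left K (n + 1),
          lt_of_lt_of_le (Nat.lt_succ_self n) (le_max_right _ _)⟩
      refine hinf.mono ?_
      rintro _ ⟨k, hk, rfl⟩ q hq
      have h2 : max (k0 q) q.2 ≤ k := le_trans (Finset.le_sup (f := fun q => max (k0 q) q.2) hq) hk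
      refine ⟨hk0 q hq k (le_trans (le_max_left _ _) h2), (hb j).1 k, fun x hx => ?_⟩
      exact le_trans (le_trans (le_max_right _ _) h2) ((hb j).le hx)
    · rw [Finset.not_nonempty_iff_eq_empty] at hF
      have h1 : {q : Finset ℕ | ∀ j ∈ F, q ∈ A j} = univ := by
        ext v; simp [hF]
      rw [h1]; exact Set.infinite_univ)
  obtain ⟨s, hs1, hs2⟩ := exists_incr a ha (fun N v => v.Nonempty ∧ ∀ x ∈ v, N ≤ x) (by
    intro N
    refine (haA (j0, N)).subset ?_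
    rintro v ⟨hv, hv2⟩
    exact ⟨hv, fun h3 => hv2 h3.2⟩) (fun v => v.sup id + 1)
  let c : ℕ → Finset ℕ := fun i => s (i + 1)
  have hc : Blk c := by
    refine blk_of_succ (fun i => (hs2 i).1) (fun i x hx y hy => ?_)
    have h1 := (hs2 (i + 1)).2 y hy
    have h2 : x ≤ (s (i + 1)).sup id := Finset.le_sup (f := id) hx
    have h3 : (s (i + 1)).sup id + 1 ≤ y := h1
    omega
  refine ⟨c, hc, fun j => ?_⟩
  have h1 : {k | ¬ InFU (b j) (c k)}.Finite := by
    refine ((haA (j, 0)).preimage hc.injective.injOn).subset ?_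
    intro k hk
    exact ⟨hs1 _, fun h3 => hk h3.1⟩
  obtain ⟨B, hB⟩ := h1.bddAbove
  refine ⟨B + 1, fun k hk => ?_⟩
  by_contra hcon
  have := hB hcon
  omega

end Pool.Agent.H97Tau
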