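import Mathlib

/-! Covers of sets of reals. -/

namespace Pool.Agent.H97Tau

/-- `C` is an open ω-cover of the set of reals `X`: its members are open in `X` and different from
`X`, and every finite subset of `X` is contained in some member. -/
def IsOmegaCover {X : Set ℝ} (C : Set (Set X)) : Prop :=
  (∀ U ∈ C, IsOpen U) ∧ Set.univ ∉ C ∧ ∀ F : Finset X, ∃ U ∈ C, ∀ x ∈ F, x ∈ U

/-- `C` is an open γ-cover of the set of reals `X`: its members are open in `X` and different from
`X`, it is infinite and every point of `X` lies in all but finitely many members. -/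
def IsGammaCover {X : Set ℝ} (C : Set (Set X)) : Prop :=
  (∀ U ∈ C, IsOpen U) ∧ Set.univ ∉ C ∧ C.Infinite ∧ ∀ x : X, {U | U ∈ C ∧ x ∉ U}.Finite

/-- `C` is an open τ-cover of the set of reals `X`: its members are open in `X` and different from
`X`, every point of `X` lies in infinitely many members, and for all `x, y` in `X` one of the sets
`{U ∈ C : x ∈ U, y ∉ U}` and `{U ∈ C : y ∈ U, x ∉ U}` is finite. -/
def IsTauCover {X : Set ℝ} (C : Set (Set X)) : Prop :=
  (∀ U ∈ C, IsOpen U) ∧ Set.univ ∉ C ∧ (∀ x : X, {U | U ∈ C ∧ x ∈ U}.Infinite) ∧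
    ∀ x y : X, {U | U ∈ C ∧ x ∈ U ∧ y ∉ U}.Finite ∨ {U | U ∈ C ∧ y ∈ U ∧ x ∉ U}.Finite

/-- the traces on `X` of the members of a family of sets of reals -/
def trace (G : Set (Set ℝ)) (X : Set ℝ) : Set (Set X) :=
  {V | ∃ U ∈ G, V = Subtype.val ⁻¹' U}

end Pool.Agent.H97Tau
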