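import Pool.Agent.H97Tau.Triv
import Pool.Agent.H97Tau.Defs

/-! Transfer to sets of reals. -/

set_option linter.unusedSectionVars false

namespace Pool.Agent.H97Tau

open Filter Set Topology
open scoped Cardinal

open Classical in
/-- characteristic function -/
noncomputable def chi (z : Set ℕ) : ℕ → Bool := fun n => decide (n ∈ z)

theorem chi_true {z : Set ℕ} {n : ℕ} : chi z n = true ↔ n ∈ z := by simp [chi]

theorem chi_inj {z w : Set ℕ} (h : chi z = chi w) : z = w := by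
  ext n
  rw [← chi_true, ← chi_true, h]

theorem opn_of_open {V : Set (ℕ → Bool)} (hV : IsOpen V) : Opn {z | chi z ∈ V} := by
  intro z hz
  obtain ⟨I, u, hu, hI⟩ := isOpen_pi_iff.1 hV (chi z) hz
  refine ⟨I.sup id + 1, fun w hw => hI ?_⟩
  intro i hi
  have h1 : i ≤ I.sup id := Finset.le_sup (f := id) hi
  have h2 : chi w i = chi z i := by
    have h3 := hw i (by omega)
    rw [Bool.eq_iff_iff, chi_true, chi_true, h3]
  rw [h2]
  exact (hu i hi).2

theorem perfect_real : Perfect (Set.univ : Set ℝ) := by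
  refine ⟨isClosed_univ, ?_⟩
  rw [preperfect_iff_nhds]
  intro x _ U hU
  obtain ⟨ε, hε, h⟩ := Metric.mem_nhds_iff.1 hU
  refine ⟨x + ε / 2, ⟨h ?_, trivial⟩, by linarith⟩
  rw [Metric.mem_ball, Real.dist_eq]
  rw [abs_lt]
  constructor <;> linarith

/-- an embedding of the power set of `ℕ` into the reals -/
theorem exists_emb : ∃ e : Set ℕ → ℝ, Function.Injective e ∧
    (∀ V : Set ℝ, IsOpen V → Opn {z | e z ∈ V}) ∧
    ∀ k, ∃ V : Set ℝ, IsOpen V ∧ ∀ z, e z ∈ V ↔ k ∈ z := by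
  obtain ⟨φ, -, hφ, hφi⟩ := perfect_real.exists_nat_bool_injection univ_nonempty
  refine ⟨fun z => φ (chi z), fun z w h => chi_inj (hφi h), ?_, ?_⟩
  · intro V hV
    exact opn_of_open (V := φ ⁻¹' V) (hV.preimage hφ)
  · intro k
    have h1 : IsClosed {f : ℕ → Bool | f k = false} :=
      isClosed_singleton.preimage (continuous_apply k)
    have h2 : IsClosed (φ '' {f | f k = false}) := (h1.isCompact.image hφ).isClosed
    refine ⟨(φ '' {f | f k = false})ᶜ, h2.isOpen_compl, fun z => ?_⟩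
    show ¬ (φ (chi z) ∈ φ '' {f | f k = false}) ↔ k ∈ z
    rw [hφi.mem_set_image, ← chi_true (z := z) (n := k)]
    show ¬ (chi z k = false) ↔ _
    simp

/-- a copy of a family of sets of naturals in the reals -/
theorem exists_copy (X0 : Set (Set ℕ)) : ∃ (X : Set ℝ) (π : X → Set ℕ),
    (∀ x, π x ∈ X0) ∧ (∀ z ∈ X0, ∃ x, π x = z) ∧ (∀ k, IsOpen {x | k ∈ π x}) ∧ #X ≤ #X0 := by
  obtain ⟨e, he, -, he3⟩ := exists_emb
  have h1 : ∀ x : (e '' X0 : Set ℝ), ∃ z, z ∈ X0 ∧ e z = x := fun x => x.2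
  choose π h2 h3 using h1
  refine ⟨e '' X0, π, h2, ?_, ?_, Cardinal.mk_image_le⟩
  · intro z hz
    exact ⟨⟨e z, z, hz, rfl⟩, he (h3 _)⟩
  · intro k
    obtain ⟨V, hV, hV2⟩ := he3 k
    have h4 : {x | k ∈ π x} = Subtype.val ⁻¹' V := by
      ext x
      show k ∈ π x ↔ (x : ℝ) ∈ V
      rw [← h3 x, hV2]
    rw [h4]
    exact hV.preimage continuous_subtype_val

/-- a countable subfamily -/
theorem exists_seq (G : Set (Set ℝ)) (hne : G.Nonempty) (hG : ∀ U ∈ G, IsOpen U) :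
    ∃ u : ℕ → Set ℝ, (∀ n, u n ∈ G) ∧ ∀ F : Set ℝ, F.Finite → (∃ U ∈ G, F ⊆ U) → ∃ n, F ⊆ u n := by
  classical
  let B := TopologicalSpace.countableBasis ℝ
  have hB := TopologicalSpace.isBasis_countableBasis ℝ
  have hBc : Countable B := (TopologicalSpace.countable_countableBasis ℝ).to_subtype
  obtain ⟨U0, hU0⟩ := hne
  let pick : Finset B → Set ℝ := fun s =>
    if h : ∃ U ∈ G, (⋃ b ∈ s, (b : Set ℝ)) ⊆ U then h.choose else U0
  have hpick : ∀ s : Finset B, (∃ U ∈ G, (⋃ b ∈ s, (b : Set ℝ)) ⊆ U) →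
      pick s ∈ G ∧ (⋃ b ∈ s, (b : Set ℝ)) ⊆ pick s := by
    intro s h
    have h1 : pick s = h.choose := dif_pos h
    rw [h1]
    exact h.choose_spec
  have hpickG : ∀ s : Finset B, pick s ∈ G := by
    intro s
    by_cases h : ∃ U ∈ G, (⋃ b ∈ s, (b : Set ℝ)) ⊆ U
    · exact (hpick s h).1
    · have h1 : pick s = U0 := dif_neg h
      rw [h1]; exact hU0
  obtain ⟨en, hen⟩ := exists_surjective_nat (Finset B)
  refine ⟨fun n => pick (en n), fun n => hpickG _, ?_⟩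
  rintro F hF ⟨U, hU, hFU⟩
  have h1 : ∀ x ∈ F, ∃ b : B, x ∈ (b : Set ℝ) ∧ (b : Set ℝ) ⊆ U := by
    intro x hx
    obtain ⟨b, hb, hxb, hbU⟩ := hB.exists_subset_of_mem_open (hFU hx) (hG U hU)
    exact ⟨⟨b, hb⟩, hxb, hbU⟩
  have h2 : ∃ s : Finset B, F ⊆ (⋃ b ∈ s, (b : Set ℝ)) ∧ (⋃ b ∈ s, (b : Set ℝ)) ⊆ U := by
    induction F, hF using Set.Finite.induction_on with
    | empty => exact ⟨∅, empty_subset _, by simp⟩
    | @insert a t _ _ ih =>
      obtain ⟨s, hs1, hs2⟩ := ih ((subset_insert _ _).trans hFU)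
        (fun x hx => h1 x (mem_insert_of_mem _ hx))
      obtain ⟨b, hb1, hb2⟩ := h1 a (mem_insert _ _)
      refine ⟨insert b s, ?_, ?_⟩
      · rintro x (rfl | hx)
        · exact mem_iUnion₂.2 ⟨b, Finset.mem_insert_self _ _, hb1⟩
        · obtain ⟨c, hc, hxc⟩ := mem_iUnion₂.1 (hs1 hx)
          exact mem_iUnion₂.2 ⟨c, Finset.mem_insert_of_mem hc, hxc⟩
      · apply iUnion₂_subset
        intro c hc
        rcases Finset.mem_insert.1 hc with rfl | hc
        · exact hb2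
        · exact (subset_iUnion₂ (s := fun (b : B) (_ : b ∈ s) => (b : Set ℝ)) c hc).trans hs2
  obtain ⟨s, hs1, hs2⟩ := h2
  obtain ⟨n, rfl⟩ := hen s
  exact ⟨n, hs1.trans (hpick _ ⟨U, hU, hs2⟩).2⟩

/-- from sequences to sets -/
theorem tau_of_seq {X : Type} (V : ℕ → Set X) (hV : ∀ k, V k ≠ Set.univ)
    (h1 : ∀ x, {k | x ∈ V k}.Infinite)
    (h2 : ∀ x y, (∃ K, ∀ k ≥ K, x ∈ V k → y ∈ V k) ∨ ∃ K, ∀ k ≥ K, y ∈ V k → x ∈ V k) :
    (∀ x : X, {U | U ∈ range V ∧ x ∈ U}.Infinite) ∧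
    ∀ x y : X, {U | U ∈ range V ∧ x ∈ U ∧ y ∉ U}.Finite ∨
      {U | U ∈ range V ∧ y ∈ U ∧ x ∉ U}.Finite := by
  classical
  constructor
  · intro x hfin
    have key : ∀ S : Set (Set X), S.Finite → (∀ U ∈ S, {k | V k = U}.Infinite) →
        ∃ z, ∀ U ∈ S, z ∉ U := by
      intro S hS
      induction S, hS using Set.Finite.induction_on with
      | empty => exact fun _ => ⟨x, fun U hU => absurd hU (notMem_empty U)⟩
      | @insert U S _ _ ih =>
        intro hinf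
        obtain ⟨z, hz⟩ := ih (fun U' hU' => hinf U' (mem_insert_of_mem _ hU'))
        have hUi := hinf U (mem_insert _ _)
        have hUne : U ≠ Set.univ := by
          obtain ⟨k, hk⟩ := hUi.nonempty
          have hk' : V k = U := hk
          rw [← hk']; exact hV k
        obtain ⟨y, hy⟩ := (Set.ne_univ_iff_exists_notMem U).1 hUne
        rcases h2 z y with ⟨K, hK⟩ | ⟨K, hK⟩
        · refine ⟨z, fun U' hU' => ?_⟩
          rcases hU' with rfl | hU'
          · intro hzU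
            obtain ⟨k, hk, hkK⟩ := hUi.exists_gt K
            have hk' : V k = U' := hk
            have := hK k hkK.le (by rw [hk']; exact hzU)
            rw [hk'] at this
            exact hy this
          · exact hz U' hU'
        · refine ⟨y, fun U' hU' => ?_⟩
          rcases hU' with rfl | hU'
          · exact hy
          · intro hyU
            obtain ⟨k, hk, hkK⟩ := (hinf U' (mem_insert_of_mem _ hU')).exists_gt K
            have hk' : V k = U' := hk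
            have := hK k hkK.le (by rw [hk']; exact hyU)
            rw [hk'] at this
            exact hz U' hU' this
    obtain ⟨z, hz⟩ := key {U | (U ∈ range V ∧ x ∈ U) ∧ {k | V k = U}.Infinite}
      (hfin.subset fun U hU => hU.1) (fun U hU => hU.2)
    have pig : ∀ S : Set ℕ, S.Infinite → (∀ k ∈ S, x ∈ V k) →
        ∃ U, (U ∈ range V ∧ x ∈ U) ∧ {k | k ∈ S ∧ V k = U}.Infinite := by
      intro S hS hSx
      by_contra hcon
      push Not at hcon
      apply hS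
      have h3 : S ⊆ ⋃ U ∈ {U | U ∈ range V ∧ x ∈ U}, {k | k ∈ S ∧ V k = U} := by
        intro k hk
        exact mem_iUnion₂.2 ⟨V k, ⟨⟨k, rfl⟩, hSx k hk⟩, hk, rfl⟩
      exact (hfin.biUnion fun U hU => hcon U hU).subset h3
    rcases h2 x z with ⟨K, hK⟩ | ⟨K, hK⟩
    · obtain ⟨U, hU, hU2⟩ := pig {k | x ∈ V k} (h1 x) (fun k hk => hk)
      obtain ⟨k, ⟨hk1, hk2⟩, hkK⟩ := hU2.exists_gt K
      have h3 := hK k hkK.le hk1
      rw [hk2] at h3
      exact hz U ⟨hU, hU2.mono fun k hk => hk.2⟩ h3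
    · have h3 : ({k | z ∈ V k} \ {k | k < K}).Infinite := (h1 z).sdiff (Set.finite_lt_nat K)
      obtain ⟨U, hU, hU2⟩ := pig _ h3 (fun k hk => hK k (not_lt.1 hk.2) hk.1)
      obtain ⟨k, ⟨hk1, hk2⟩, -⟩ := hU2.exists_gt K
      have h4 : z ∈ V k := hk1.1
      rw [hk2] at h4
      exact hz U ⟨hU, hU2.mono fun k hk => hk.2⟩ h4
  · intro x y
    rcases h2 x y with ⟨K, hK⟩ | ⟨K, hK⟩
    · left
      refine ((Set.finite_lt_nat K).image V).subset ?_
      rintro _ ⟨⟨k, rfl⟩, h3, h4⟩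
      refine ⟨k, ?_, rfl⟩
      by_contra hcon
      exact h4 (hK k (not_lt.1 hcon) h3)
    · right
      refine ((Set.finite_lt_nat K).image V).subset ?_
      rintro _ ⟨⟨k, rfl⟩, h3, h4⟩
      refine ⟨k, ?_, rfl⟩
      by_contra hcon
      exact h4 (hK k (not_lt.1 hcon) h3)

/-- the pseudo-intersection property from the covering property -/
theorem PI_of_reals {κ : Cardinal.{0}} (h : ∀ Y : Set ℝ, #Y < κ → ∀ C : Set (Set Y),
    IsOmegaCover C → ∃ D ⊆ C, IsGammaCover D) : PI κ := by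
  classical
  intro J A hJ hA
  obtain ⟨Y, π, h1, h2, h3, h4⟩ := exists_copy (range A)
  let v : ℕ → Set Y := fun k => {x | k ∈ π x}
  let bad : Set ℕ := {k | ∀ j, k ∈ A j}
  by_cases hbad : bad.Finite
  swap
  · refine ⟨bad, hbad, fun j => ?_⟩
    have : bad \ A j = ∅ := by
      ext k
      constructor
      · rintro ⟨h5, h6⟩; exact absurd (h5 j) h6
      · exact fun h => absurd h (notMem_empty k)
    rw [this]; exact finite_empty
  obtain ⟨D, hD, -, -, hDi, hDf⟩ := h Y (lt_of_le_of_lt (h4.trans Cardinal.mk_range_le) hJ)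
    (v '' badᶜ) (by
    refine ⟨?_, ?_, ?_⟩
    · rintro _ ⟨k, -, rfl⟩; exact h3 k
    · rintro ⟨k, hk, h5⟩
      apply hk
      intro j
      obtain ⟨x, hx⟩ := h2 (A j) ⟨j, rfl⟩
      have h6 : x ∈ v k := by rw [h5]; trivial
      rw [← hx]; exact h6
    · intro F
      have h5 : ∀ x : Y, ∃ j, A j = π x := fun x => h1 x
      choose g hg using h5
      obtain ⟨k, hk, hkb⟩ := ((hA (F.image g)).sdiff hbad).nonempty
      refine ⟨v k, ⟨k, hkb, rfl⟩, fun x hx => ?_⟩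
      show k ∈ π x
      rw [← hg x]
      exact hk _ (Finset.mem_image_of_mem g hx))
  have h5 : ∀ U ∈ D, ∃ k, v k = U := fun U hU => by
    obtain ⟨k, -, hk⟩ := hD hU
    exact ⟨k, hk⟩
  choose! c hc using h5
  have hinj : InjOn c D := by
    intro U hU W hW h
    rw [← hc U hU, ← hc W hW, h]
  refine ⟨c '' D, hDi.image hinj, fun j => ?_⟩
  obtain ⟨x, hx⟩ := h2 (A j) ⟨j, rfl⟩
  refine ((hDf x).image c).subset ?_
  rintro _ ⟨⟨U, hU, rfl⟩, h6⟩
  refine ⟨U, ⟨hU, fun h7 => h6 ?_⟩, rfl⟩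
  rw [← hc U hU] at h7
  rw [← hx]; exact h7

/-- the combinatorial theorem -/
theorem comb {κ : Cardinal.{0}} (hPI : PI κ) (hκ : ℵ₀ < κ) {W : Type} (hW : #W ≤ κ)
    (U : W → ℕ → Set (Set ℕ)) (hU : ∀ w n, Opn (U w n)) :
    ∃ (X : Set (Set ℕ)) (E : Set ℕ),
    (∀ w, (∀ F : Set (Set ℕ), F.Finite → F ⊆ X → {n | F ⊆ U w n}.Infinite) →
      ∃ m : ℕ → ℕ, StrictMono m ∧ (∀ z ∈ X, {k | z ∈ U w (m k)}.Infinite) ∧
        ∀ z ∈ X, ∀ y ∈ X, (∃ K, ∀ k ≥ K, z ∈ U w (m k) → y ∈ U w (m k)) ∨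
          ∃ K, ∀ k ≥ K, y ∈ U w (m k) → z ∈ U w (m k)) ∧
    X.Nonempty ∧ (∀ z ∈ X, (E ∩ z).Infinite) ∧
    (∀ z ∈ X, ∀ y ∈ X, Al (E ∩ z) (E ∩ y) ∨ Al (E ∩ y) (E ∩ z)) ∧
    ∀ a ⊆ E, a.Infinite → ∃ z ∈ X, (a \ z).Infinite := by
  by_cases hd : ∃ (Ξ : Type) (f : Ξ → ℕ → ℕ), #Ξ ≤ κ ∧ ∀ g : ℕ → ℕ, ∃ ξ N, ∀ n ≥ N, g n ≤ f ξ n
  · obtain ⟨Ξ, f, hΞ, hf⟩ := hd
    obtain ⟨X, h1, h2, h3, h4⟩ := exists_family hPI hκ hW U hU hΞ f hf
    refine ⟨X, Set.univ, h1, ?_, ?_, ?_, fun a _ ha => h4 a ha⟩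
    · obtain ⟨z, hz, -⟩ := h4 Set.univ infinite_univ
      exact ⟨z, hz⟩
    · intro z hz
      rw [univ_inter]; exact h2 z hz
    · intro z hz y hy
      rw [univ_inter, univ_inter]; exact h3 z hz y hy
  · apply exists_family_triv hκ.le hW U hU
    intro Ξ f hΞ
    by_contra hcon
    push Not at hcon
    exact hd ⟨Ξ, f, hΞ, fun g => by
      obtain ⟨ξ, N, h⟩ := hcon g
      exact ⟨ξ, N, h⟩⟩

theorem main (G : Set (Set (Set ℝ))) (hG : ∀ H ∈ G, ∀ U ∈ H, IsOpen U)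
    (h : #G ≤ ℵ₁ ∨ ∀ Y : Set ℝ, #Y < #G → ∀ C : Set (Set Y), IsOmegaCover C →
      ∃ D ⊆ C, IsGammaCover D) :
    ∃ X : Set ℝ,
      (∃ C : Set (Set X), IsOmegaCover C ∧ IsTauCover C ∧ ∀ D ⊆ C, ¬ IsGammaCover D) ∧
      ∀ H ∈ G, IsOmegaCover (trace H X) → ∃ D ⊆ trace H X, IsTauCover D := by
  classical
  -- the cardinal
  obtain ⟨κ, hPI, hκ, hGκ⟩ : ∃ κ : Cardinal.{0}, PI κ ∧ ℵ₀ < κ ∧ #G ≤ κ := by
    have h0 : ℵ₀ < ℵ₁ := Cardinal.aleph0_lt_aleph_one
    rcases h with h | h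
    · exact ⟨ℵ₁, PI_aleph_one, h0, h⟩
    · exact ⟨max #G ℵ₁, (PI_of_reals h).max, lt_of_lt_of_le h0 (le_max_right _ _),
        le_max_left _ _⟩
  obtain ⟨e, he, he2, he3⟩ := exists_emb
  have hseq : ∀ H : G, ∃ u : ℕ → Set ℝ, (H : Set (Set ℝ)).Nonempty →
      (∀ n, u n ∈ (H : Set (Set ℝ))) ∧
      ∀ F : Set ℝ, F.Finite → (∃ U ∈ (H : Set (Set ℝ)), F ⊆ U) → ∃ n, F ⊆ u n := by
    intro H
    by_cases hne : (H : Set (Set ℝ)).Nonempty
    · obtain ⟨u, hu⟩ := exists_seq H hne (hG H H.2)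
      exact ⟨u, fun _ => hu⟩
    · exact ⟨fun _ => ∅, fun h => absurd h hne⟩
  choose u hu using hseq
  have hopn : ∀ (H : G) (n : ℕ), Opn {z | (H : Set (Set ℝ)).Nonempty ∧ e z ∈ u H n} := by
    intro H n
    by_cases hne : (H : Set (Set ℝ)).Nonempty
    · have h1 : {z | (H : Set (Set ℝ)).Nonempty ∧ e z ∈ u H n} = {z | e z ∈ u H n} := by
        ext z
        exact ⟨fun h => h.2, fun h => ⟨hne, h⟩⟩
      rw [h1]
      exact he2 _ (hG H H.2 _ ((hu H hne).1 n))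
    · rintro z ⟨h1, -⟩
      exact absurd h1 hne
  obtain ⟨X0, E, hA, hne, hEi, hEl, hEa⟩ := comb hPI hκ (W := G) hGκ
    (fun H n => {z | (H : Set (Set ℝ)).Nonempty ∧ e z ∈ u H n}) hopn
  have hx : ∀ x : (e '' X0 : Set ℝ), ∃ z, z ∈ X0 ∧ e z = x := fun x => x.2
  choose π hπ1 hπ2 using hx
  have hπ3 : ∀ z ∈ X0, ∃ x, π x = z := fun z hz => ⟨⟨e z, z, hz, rfl⟩, he (hπ2 _)⟩
  refine ⟨e '' X0, ?_, ?_⟩
  · -- the bad cover
    let v : ℕ → Set (e '' X0 : Set ℝ) := fun k => {x | k ∈ π x}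
    have hvo : ∀ k, IsOpen (v k) := by
      intro k
      obtain ⟨V, hV, hV2⟩ := he3 k
      have h4 : v k = Subtype.val ⁻¹' V := by
        ext x
        show k ∈ π x ↔ (x : ℝ) ∈ V
        rw [← hπ2 x, hV2]
      rw [h4]
      exact hV.preimage continuous_subtype_val
    let bad : Set ℕ := {k | ∀ z ∈ X0, k ∈ z}
    have hbad : (E ∩ bad).Finite := by
      by_contra hcon
      obtain ⟨z, hz, h⟩ := hEa (E ∩ bad) inter_subset_left hcon
      apply h
      have : (E ∩ bad) \ z = ∅ := by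
        ext k
        constructor
        · rintro ⟨h5, h6⟩; exact absurd (h5.2 z hz) h6
        · exact fun h => absurd h (notMem_empty k)
      rw [this]; exact finite_empty
    have hvne : ∀ k, k ∉ bad → v k ≠ Set.univ := by
      intro k hk h5
      apply hk
      intro z hz
      obtain ⟨x, rfl⟩ := hπ3 z hz
      have : x ∈ v k := by rw [h5]; trivial
      exact this
    obtain ⟨z0, hz0⟩ := hne
    have hgood : ∀ z ∈ X0, ((E \ bad) ∩ z).Infinite := by
      intro z hz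
      refine ((hEi z hz).sdiff hbad).mono ?_
      rintro k ⟨⟨h1, h2⟩, h3⟩
      exact ⟨⟨h1, fun h4 => h3 ⟨h1, h4⟩⟩, h2⟩
    have hEb : (E \ bad).Infinite := (hgood z0 hz0).mono inter_subset_left
    have hopen : ∀ U ∈ v '' (E \ bad), IsOpen U := by
      rintro _ ⟨k, -, rfl⟩; exact hvo k
    have huniv : Set.univ ∉ v '' (E \ bad) := by
      rintro ⟨k, hk, h5⟩
      exact hvne k hk.2 h5
    refine ⟨v '' (E \ bad), ⟨hopen, huniv, ?_⟩, ⟨hopen, huniv, ?_⟩, ?_⟩
    · intro F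
      have h5 : ∀ F : Finset (e '' X0 : Set ℝ), ∃ z ∈ X0, ∀ x ∈ F, Al (E ∩ z) (E ∩ π x) := by
        intro F
        induction F using Finset.induction_on with
        | empty => exact ⟨z0, hz0, fun x hx => absurd hx (Finset.notMem_empty x)⟩
        | insert a s _ ih =>
          obtain ⟨z, hz, hz2⟩ := ih
          rcases hEl z hz (π a) (hπ1 a) with h6 | h6
          · refine ⟨z, hz, fun x hx => ?_⟩
            rcases Finset.mem_insert.1 hx with rfl | hx
            · exact h6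
            · exact hz2 x hx
          · refine ⟨π a, hπ1 a, fun x hx => ?_⟩
            rcases Finset.mem_insert.1 hx with rfl | hx
            · exact ⟨0, fun _ _ h => h⟩
            · exact h6.trans (hz2 x hx)
      obtain ⟨z, hz, hz2⟩ := h5 F
      choose! N hN using hz2
      obtain ⟨k, ⟨hk1, hk2⟩, hk3⟩ := (hgood z hz).exists_gt (F.sup N)
      refine ⟨v k, ⟨k, hk1, rfl⟩, fun x hx => ?_⟩
      exact (hN x hx k (le_trans (Finset.le_sup hx) hk3.le) ⟨hk1.1, hk2⟩).2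
    · -- enumeration
      have hnx : ∀ n, ∃ y ∈ E \ bad, n < y := fun n => hEb.exists_gt n
      have : DecidablePred (· ∈ E \ bad) := Classical.decPred _
      let c : ℕ → ℕ := Nat.nth (· ∈ E \ bad)
      have hc : ∀ i, c i ∈ E \ bad := fun i => Nat.nth_mem_of_infinite hEb i
      have hcm : StrictMono c := Nat.nth_strictMono hEb
      have hcr : range c = E \ bad := Nat.range_nth_of_infinite hEb
      have hrange : range (fun i => v (c i)) = v '' (E \ bad) := by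
        rw [← hcr, ← range_comp]
        rfl
      have h5 := tau_of_seq (fun i => v (c i)) (fun i => hvne _ (hc i).2) (by
        intro x
        have h6 : ((E \ bad) ∩ π x).Infinite := hgood _ (hπ1 x)
        intro hfin
        apply h6
        refine (hfin.image c).subset ?_
        rintro k ⟨hk1, hk2⟩
        rw [← hcr] at hk1
        obtain ⟨i, rfl⟩ := hk1
        exact ⟨i, hk2, rfl⟩) (by
        intro x y
        rcases hEl _ (hπ1 x) _ (hπ1 y) with ⟨N, hN⟩ | ⟨N, hN⟩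
        · left
          exact ⟨N, fun k hk hxk => (hN (c k) (le_trans hk hcm.le_apply) ⟨(hc k).1, hxk⟩).2⟩
        · right
          exact ⟨N, fun k hk hxk => (hN (c k) (le_trans hk hcm.le_apply) ⟨(hc k).1, hxk⟩).2⟩)
      rw [hrange] at h5
      exact h5
    · rintro D hD ⟨-, -, hDi, hDf⟩
      have h5 : ∀ U ∈ D, ∃ k, k ∈ E \ bad ∧ v k = U := fun U hU => hD hU
      choose! c hc1 hc2 using h5
      have hinj : InjOn c D := by
        intro U hU W hW h
        rw [← hc2 U hU, ← hc2 W hW, h]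
      obtain ⟨z, hz, h⟩ := hEa (c '' D) (by
        rintro _ ⟨U, hU, rfl⟩; exact (hc1 U hU).1) (hDi.image hinj)
      apply h
      obtain ⟨x, rfl⟩ := hπ3 z hz
      refine ((hDf x).image c).subset ?_
      rintro _ ⟨⟨U, hU, rfl⟩, h6⟩
      refine ⟨U, ⟨hU, fun h7 => h6 ?_⟩, rfl⟩
      rw [← hc2 U hU] at h7
      exact h7
  · -- the covers in `G`
    intro H hH hom
    obtain ⟨ho1, ho2, ho3⟩ := hom
    have hHne : H.Nonempty := by
      obtain ⟨V, ⟨U, hU, -⟩, -⟩ := ho3 ∅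
      exact ⟨U, hU⟩
    obtain ⟨hu1, hu2⟩ := hu ⟨H, hH⟩ hHne
    set w := u ⟨H, hH⟩ with hw
    have hne2 : ∀ n, ∃ x : (e '' X0 : Set ℝ), (x : ℝ) ∉ w n := by
      intro n
      by_contra hcon
      push Not at hcon
      apply ho2
      exact ⟨w n, hu1 n, (eq_univ_of_forall hcon).symm⟩
    choose p hp using hne2
    have hinf : ∀ F : Set (e '' X0 : Set ℝ), F.Finite → {n | ∀ x ∈ F, (x : ℝ) ∈ w n}.Infinite := by
      intro F hF hfin
      obtain ⟨V, ⟨U, hU, rfl⟩, hV⟩ := ho3 (hF.toFinset ∪ (hfin.image p).toFinset)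
      obtain ⟨n, hn⟩ := hu2 (Subtype.val '' (F ∪ p '' {n | ∀ x ∈ F, (x : ℝ) ∈ w n}))
        ((hF.union (hfin.image p)).image _) ⟨U, hU, by
          rintro _ ⟨x, hx, rfl⟩
          apply hV
          rw [Finset.mem_union]
          rcases hx with hx | hx
          · exact Or.inl (hF.mem_toFinset.2 hx)
          · exact Or.inr ((hfin.image p).mem_toFinset.2 hx)⟩
      have h5 : n ∈ {n | ∀ x ∈ F, (x : ℝ) ∈ w n} := fun x hx => hn ⟨x, Or.inl hx, rfl⟩
      exact hp n (hn ⟨p n, Or.inr ⟨n, h5, rfl⟩, rfl⟩)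
    obtain ⟨m, -, hm1, hm2⟩ := hA ⟨H, hH⟩ (by
      intro F hF hFX hfin
      let F' : Set (e '' X0 : Set ℝ) := {x | π x ∈ F}
      have hπi : Function.Injective π := by
        intro x y hxy
        apply Subtype.ext
        rw [← hπ2 x, ← hπ2 y, hxy]
      have hF' : F'.Finite := hF.preimage hπi.injOn
      apply hinf F' hF'
      refine hfin.subset ?_
      intro n hn z hz
      refine ⟨hHne, ?_⟩
      obtain ⟨x, rfl⟩ := hπ3 z (hFX hz)
      rw [hπ2 x]
      exact hn x hz)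
    have hmem : ∀ (x : (e '' X0 : Set ℝ)) (n : ℕ),
        π x ∈ {z | H.Nonempty ∧ e z ∈ w n} ↔ (x : ℝ) ∈ w n := by
      intro x n
      show (H.Nonempty ∧ e (π x) ∈ w n) ↔ _
      rw [hπ2 x]
      exact ⟨fun h => h.2, fun h => ⟨hHne, h⟩⟩
    have h5 := tau_of_seq (X := (e '' X0 : Set ℝ)) (fun k => Subtype.val ⁻¹' w (m k)) (by
      intro k h6
      apply hp (m k)
      have h7 : p (m k) ∈ (Set.univ : Set (e '' X0 : Set ℝ)) := trivial
      rw [← h6] at h7
      exact h7) (by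
      intro x
      refine (hm1 (π x) (hπ1 x)).mono ?_
      intro k hk
      exact (hmem x (m k)).1 hk) (by
      intro x y
      rcases hm2 (π x) (hπ1 x) (π y) (hπ1 y) with ⟨K, hK⟩ | ⟨K, hK⟩
      · left
        exact ⟨K, fun k hk hxk => (hmem y (m k)).1 (hK k hk ((hmem x (m k)).2 hxk))⟩
      · right
        exact ⟨K, fun k hk hxk => (hmem x (m k)).1 (hK k hk ((hmem y (m k)).2 hxk))⟩)
    have hsub : range (fun k => (Subtype.val ⁻¹' w (m k) : Set (e '' X0 : Set ℝ))) ⊆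
        trace H (e '' X0) := by
      rintro _ ⟨k, rfl⟩
      exact ⟨w (m k), hu1 _, rfl⟩
    exact ⟨_, hsub, fun U hU => ho1 U (hsub hU), fun h6 => ho2 (hsub h6), h5.1, h5.2⟩

end Pool.Agent.H97Tau
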