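import Mathlib

/-! An idempotent ultrafilter on the finite subsets of `ℕ`, and the fusion lemma. -/

set_option linter.unusedSectionVars false

namespace Pool.Agent.H97Tau

open Filter Set

/-- the semigroup of finite sets under union -/
@[instance_reducible]
def fsem : Semigroup (Finset ℕ) where
  mul a b := a ∪ b
  mul_assoc := Finset.union_assoc

section
attribute [local instance] fsem Ultrafilter.semigroup

theorem exists_idem : ∃ p : Ultrafilter (Finset ℕ),
    (∀ S : Set (Finset ℕ), S ∈ p → {t | {V | t ∪ V ∈ S} ∈ p} ∈ p) ∧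
    ∀ N : ℕ, {V : Finset ℕ | V.Nonempty ∧ ∀ x ∈ V, N ≤ x} ∈ p := by
  let E : ℕ → Set (Finset ℕ) := fun N => {V | V.Nonempty ∧ ∀ x ∈ V, N ≤ x}
  let s : Set (Ultrafilter (Finset ℕ)) := {p | ∀ N, E N ∈ p}
  have hcl : IsClosed s := by
    have : s = ⋂ N, {p : Ultrafilter (Finset ℕ) | E N ∈ p} := by
      ext p; simp [s]
    rw [this]
    exact isClosed_iInter fun N => ultrafilter_isClosed_basic _
  have hne : s.Nonempty := by
    have hd : Directed (· ≥ ·) (fun N => 𝓟 (E N)) := by
      intro a b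
      refine ⟨max a b, ?_, ?_⟩
      · exact principal_mono.2 fun V hV => ⟨hV.1, fun x hx => le_trans (le_max_left _ _) (hV.2 x hx)⟩
      · exact principal_mono.2 fun V hV => ⟨hV.1, fun x hx => le_trans (le_max_right _ _) (hV.2 x hx)⟩
    have hb : NeBot (⨅ N, 𝓟 (E N)) := by
      apply Filter.iInf_neBot_of_directed' hd
      intro N
      rw [principal_neBot_iff]
      exact ⟨{N}, Finset.singleton_nonempty _, fun x hx => by rw [Finset.mem_singleton.1 hx]⟩
    refine ⟨Ultrafilter.of (⨅ N, 𝓟 (E N)), fun N => ?_⟩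
    exact (Ultrafilter.of_le _) (mem_iInf_of_mem N (mem_principal_self _))
  have hmul : ∀ᵉ (x ∈ s) (y ∈ s), x * y ∈ s := by
    intro x hx y hy N
    have h1 : ∀ᶠ m in ((x * y : Ultrafilter (Finset ℕ)) : Filter (Finset ℕ)), m ∈ E N := by
      rw [Ultrafilter.eventually_mul]
      filter_upwards [hx N] with m hm
      filter_upwards [hy N] with m' hm'
      refine ⟨hm.1.mono Finset.subset_union_left, fun z hz => ?_⟩
      rcases Finset.mem_union.1 hz with h | h
      · exact hm.2 z h
      · exact hm'.2 z h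
    exact h1
  obtain ⟨p, hp, hpp⟩ := exists_idempotent_in_compact_subsemigroup
    (M := Ultrafilter (Finset ℕ)) Ultrafilter.continuous_mul_left s hne hcl.isCompact hmul
  refine ⟨p, fun S hS => ?_, hp⟩
  have h1 : ∀ᶠ m in ((p * p : Ultrafilter (Finset ℕ)) : Filter (Finset ℕ)), m ∈ S := by
    rw [hpp]; exact hS
  rw [Ultrafilter.eventually_mul] at h1
  exact h1

end

/-- `V` lies beyond `W` -/
def Bey (W V : Finset ℕ) : Prop := ∀ x ∈ W, ∀ y ∈ V, x < y

/-- a block sequence -/
def Blk (b : ℕ → Finset ℕ) : Prop := (∀ i, (b i).Nonempty) ∧ ∀ i j, i < j → Bey (b i) (b j)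

theorem blk_of_succ {b : ℕ → Finset ℕ} (h1 : ∀ i, (b i).Nonempty)
    (h2 : ∀ i, Bey (b i) (b (i + 1))) : Blk b := by
  refine ⟨h1, fun i j hij => ?_⟩
  induction j, hij using Nat.le_induction with
  | base => exact h2 i
  | succ n hn ih =>
    intro x hx y hy
    obtain ⟨w, hw⟩ := h1 n
    exact (ih x hx w hw).trans (h2 n w hw y hy)

/-- the fusion lemma -/
theorem fusion {p : Ultrafilter (Finset ℕ)}
    (hp : ∀ S : Set (Finset ℕ), S ∈ p → {t | {V | t ∪ V ∈ S} ∈ p} ∈ p)
    (hp2 : ∀ N : ℕ, {V : Finset ℕ | V.Nonempty ∧ ∀ x ∈ V, N ≤ x} ∈ p)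
    (S : List (Finset ℕ) → Set (Finset ℕ)) (hS : ∀ l, S l ∈ p) :
    ∃ T : ℕ → Finset ℕ, Blk T ∧ ∀ i, ∀ J : Finset ℕ, J.Nonempty → (∀ j ∈ J, i ≤ j) →
      J.biUnion T ∈ S ((List.range i).map T) := by
  classical
  -- states
  let St := {s : List (Finset ℕ) × Set (Finset ℕ) // s.2 ∈ p}
  have step : ∀ s : St, ∃ t : Finset ℕ, t ∈ s.1.2 ∧ {V | t ∪ V ∈ s.1.2} ∈ p ∧ t.Nonempty := by
    intro s
    have h1 : s.1.2 ∩ {t | {V | t ∪ V ∈ s.1.2} ∈ p} ∩
        {V : Finset ℕ | V.Nonempty ∧ ∀ x ∈ V, 0 ≤ x} ∈ p :=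
      inter_mem (inter_mem s.2 (hp _ s.2)) (hp2 0)
    obtain ⟨t, ⟨ht1, ht2⟩, ht3⟩ := p.nonempty_of_mem h1
    exact ⟨t, ht1, ht2, ht3.1⟩
  choose t ht1 ht2 ht3 using step
  let nx : St → St := fun s => ⟨(s.1.1 ++ [t s], s.1.2 ∩ {V | t s ∪ V ∈ s.1.2} ∩
    S (s.1.1 ++ [t s]) ∩ {V : Finset ℕ | V.Nonempty ∧ ∀ x ∈ V, (t s).sup id + 1 ≤ x}),
    inter_mem (inter_mem (inter_mem s.2 (ht2 s)) (hS _)) (hp2 _)⟩
  let s0 : St := ⟨([], S []), hS []⟩
  let st : ℕ → St := fun n => nx^[n] s0
  have hst : ∀ n, st (n + 1) = nx (st n) := fun n => Function.iterate_succ_apply' nx n s0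
  let T : ℕ → Finset ℕ := fun n => t (st n)
  have hlist : ∀ n, (st n).1.1 = (List.range n).map T := by
    intro n
    induction n with
    | zero => rfl
    | succ n ih =>
      rw [hst, List.range_succ, List.map_append, ← ih]
      rfl
  have hQS : ∀ n, (st n).1.2 ⊆ S ((List.range n).map T) := by
    intro n
    cases n with
    | zero => exact subset_rfl
    | succ n =>
      rw [← hlist]
      rw [hst]
      intro V hV
      exact hV.1.2
  have hQ : ∀ n, (st (n + 1)).1.2 ⊆ (st n).1.2 := by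
    intro n
    rw [hst]
    intro V hV
    exact hV.1.1.1
  have hQ2 : ∀ n, ∀ V ∈ (st (n + 1)).1.2, T n ∪ V ∈ (st n).1.2 := by
    intro n
    rw [hst]
    intro V hV
    exact hV.1.1.2
  have hQ3 : ∀ n, ∀ V ∈ (st (n + 1)).1.2, ∀ x ∈ V, (T n).sup id + 1 ≤ x := by
    intro n
    rw [hst]
    intro V hV
    exact hV.2.2
  refine ⟨T, blk_of_succ (fun i => ht3 _) (fun i x hx y hy => ?_), ?_⟩
  · have h1 := hQ3 i (T (i + 1)) (ht1 _) y hy
    have h2 : x ≤ (T i).sup id := Finset.le_sup (f := id) hx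
    omega
  · have key : ∀ N i, ∀ J : Finset ℕ, J.Nonempty → (∀ j ∈ J, i ≤ j) → (∀ j ∈ J, j < i + N) →
        J.biUnion T ∈ (st i).1.2 := by
      intro N
      induction N with
      | zero =>
        intro i J hJ h1 h2
        obtain ⟨j, hj⟩ := hJ
        have := h1 j hj
        have := h2 j hj
        omega
      | succ N ih =>
        intro i J hJ h1 h2
        by_cases hi : i ∈ J
        · by_cases hJ' : (J.erase i).Nonempty
          · have h3 := ih (i + 1) (J.erase i) hJ' (fun j hj => by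
              have h4 := h1 j (Finset.mem_of_mem_erase hj)
              have h5 := Finset.ne_of_mem_erase hj
              omega) (fun j hj => by
              have h4 := h2 j (Finset.mem_of_mem_erase hj)
              omega)
            have h4 := hQ2 i _ h3
            have h5 : J.biUnion T = T i ∪ (J.erase i).biUnion T := by
              rw [← Finset.biUnion_insert, Finset.insert_erase hi]
            rw [h5]; exact h4
          · rw [Finset.not_nonempty_iff_eq_empty] at hJ'
            have h5 : J = {i} := by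
              rw [← Finset.insert_erase hi, hJ']
              rfl
            rw [h5, Finset.singleton_biUnion]
            exact ht1 _
        · apply hQ
          apply ih (i + 1) J hJ
          · intro j hj
            have h4 := h1 j hj
            have h5 : j ≠ i := fun e => hi (e ▸ hj)
            omega
          · intro j hj
            have h4 := h2 j hj
            omega
    intro i J hJ h1
    apply hQS
    apply key (J.sup id + 1) i J hJ h1
    intro j hj
    have : j ≤ J.sup id := Finset.le_sup (f := id) hj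
    omega

end Pool.Agent.H97Tau
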