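import Pool.Agent.H97Tau.Final

/-! The final statement. -/

set_option linter.unusedSectionVars false

namespace Pool.Agent.H97Tau

open Filter Set Topology
open scoped Cardinal

/-- a small collection of countable families of open sets containing a copy of everything -/
theorem exists_codes : ∃ G : Set (Set (Set ℝ)), #G ≤ 𝔠 ∧ (∀ H ∈ G, ∀ U ∈ H, IsOpen U) ∧
    ∀ u : ℕ → Set ℝ, (∀ n, IsOpen (u n)) → range u ∈ G := by
  classical
  let B := TopologicalSpace.countableBasis ℝ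
  have hB := TopologicalSpace.isBasis_countableBasis ℝ
  have hBc : Countable B := (TopologicalSpace.countable_countableBasis ℝ).to_subtype
  let φ : (ℕ → Set B) → Set (Set ℝ) := fun c => range (fun n => ⋃ b ∈ c n, (b : Set ℝ))
  refine ⟨range φ, ?_, ?_, ?_⟩
  · refine Cardinal.mk_range_le.trans ?_
    have h1 : #B ≤ ℵ₀ := Cardinal.mk_le_aleph0
    have h2 : #(Set B) ≤ 𝔠 := by
      rw [Cardinal.mk_set, ← Cardinal.two_power_aleph0]
      exact Cardinal.power_le_power_left two_ne_zero h1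
    rw [← Cardinal.power_def, Cardinal.mk_nat]
    exact (Cardinal.power_le_power_right h2).trans Cardinal.continuum_power_aleph0.le
  · rintro _ ⟨c, rfl⟩ _ ⟨n, rfl⟩
    exact isOpen_biUnion fun b _ => hB.isOpen b.2
  · intro u hu
    refine ⟨fun n => {b | (b : Set ℝ) ⊆ u n}, ?_⟩
    show range (fun n => ⋃ b ∈ {b : B | (b : Set ℝ) ⊆ u n}, (b : Set ℝ)) = range u
    congr 1
    funext n
    apply Subset.antisymm
    · exact iUnion₂_subset fun b hb => hb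
    · intro x hx
      obtain ⟨b, hb, hxb, hbU⟩ := hB.exists_subset_of_mem_open hx (hu n)
      exact mem_iUnion₂.2 ⟨⟨b, hb⟩, hbU, hxb⟩

theorem main2 (κ : Cardinal.{0})
    (hκ : κ ≤ ℵ₁ ∨ ∀ Y : Set ℝ, #Y < κ → ∀ C : Set (Set Y), IsOmegaCover C →
      ∃ D ⊆ C, IsGammaCover D)
    (G : Set (Set (Set ℝ))) (hGκ : #G ≤ κ) (hG : ∀ H ∈ G, ∀ U ∈ H, IsOpen U) :
    ∃ X : Set ℝ,
      (∃ C : Set (Set X), IsOmegaCover C ∧ IsTauCover C ∧ ∀ D ⊆ C, ¬ IsGammaCover D) ∧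
      (∀ H ∈ G, IsOmegaCover (trace H X) → ∃ D ⊆ trace H X, IsTauCover D) ∧
      (𝔠 ≤ κ → ∀ C : Set (Set X), IsOmegaCover C → ∃ D ⊆ C, IsTauCover D) := by
  classical
  have hcond : ∀ G' : Set (Set (Set ℝ)), #G' ≤ κ → #G' ≤ ℵ₁ ∨ ∀ Y : Set ℝ, #Y < #G' →
      ∀ C : Set (Set Y), IsOmegaCover C → ∃ D ⊆ C, IsGammaCover D := by
    intro G' hG'
    rcases hκ with h | h
    · exact Or.inl (hG'.trans h)
    · exact Or.inr fun Y hY => h Y (lt_of_lt_of_le hY hG')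
  by_cases hc : 𝔠 ≤ κ
  · obtain ⟨K, hK1, hK2, hK3⟩ := exists_codes
    have hGK : #(G ∪ K : Set (Set (Set ℝ))) ≤ κ := by
      refine (Cardinal.mk_union_le _ _).trans ?_
      have h1 : ℵ₀ ≤ κ := Cardinal.aleph0_le_continuum.trans hc
      exact (add_le_add hGκ (hK1.trans hc)).trans (Cardinal.add_eq_self h1).le
    obtain ⟨X, hX1, hX2⟩ := main (G ∪ K) (by
      rintro H (hH | hH)
      · exact hG H hH
      · exact hK2 H hH) (hcond _ hGK)
    refine ⟨X, hX1, fun H hH => hX2 H (Or.inl hH), fun _ C hC => ?_⟩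
    obtain ⟨ho1, ho2, ho3⟩ := hC
    let H0 : Set (Set ℝ) := {V | IsOpen V ∧ (Subtype.val ⁻¹' V : Set X) ∈ C}
    have hlift : ∀ U ∈ C, ∃ V ∈ H0, Subtype.val ⁻¹' V = U := by
      intro U hU
      obtain ⟨V, hV, hV2⟩ := isOpen_induced_iff.1 (ho1 U hU)
      exact ⟨V, ⟨hV, by rw [hV2]; exact hU⟩, hV2⟩
    have hne : H0.Nonempty := by
      obtain ⟨U, hU, -⟩ := ho3 ∅
      obtain ⟨V, hV, -⟩ := hlift U hU
      exact ⟨V, hV⟩
    obtain ⟨u, hu1, hu2⟩ := exists_seq H0 hne (fun U hU => hU.1)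
    have hsub : trace (range u) X ⊆ C := by
      rintro _ ⟨_, ⟨n, rfl⟩, rfl⟩
      exact (hu1 n).2
    obtain ⟨D, hD, hD2⟩ := hX2 (range u) (Or.inr (hK3 u fun n => (hu1 n).1))
      ⟨fun U hU => ho1 U (hsub hU), fun h => ho2 (hsub h), fun F => by
        obtain ⟨U, hU, hF⟩ := ho3 F
        obtain ⟨V, hV, rfl⟩ := hlift U hU
        obtain ⟨n, hn⟩ := hu2 (Subtype.val '' (F : Set X)) (F.finite_toSet.image _) ⟨V, hV, by
          rintro _ ⟨x, hx, rfl⟩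
          exact hF x hx⟩
        exact ⟨_, ⟨u n, ⟨n, rfl⟩, rfl⟩, fun x hx => hn ⟨x, hx, rfl⟩⟩⟩
    exact ⟨D, hD.trans hsub, hD2⟩
  · obtain ⟨X, hX1, hX2⟩ := main G hG (hcond _ hGκ)
    exact ⟨X, hX1, hX2, fun h => absurd h hc⟩

end Pool.Agent.H97Tau
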