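import Pool.Agent.H97Tau.Core

/-! First phase: merging consecutive blocks. -/

set_option linter.unusedSectionVars false

namespace Pool.Agent.H97Tau

open Filter Set
open scoped Cardinal

/-- no block straddles `M` -/
def Bd (b : ℕ → Finset ℕ) (M : ℕ) : Prop := ∀ i, (∀ x ∈ b i, x < M) ∨ ∀ x ∈ b i, M ≤ x

theorem step1 {b : ℕ → Finset ℕ} (hb : Blk b) {U : ℕ → Set (Set ℕ)} (hU : ∀ n, Opn (U n))
    {O : Set (Set ℕ)} (ho : ∀ z, Aeq z (un b univ) → z ∈ O)
    (hcov : ∀ F : Set (Set ℕ), F.Finite → F ⊆ O → {n | F ⊆ U n}.Infinite)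
    (n0 M : ℕ) (F0 : Set (Set ℕ)) (hF0 : F0.Finite) (hF0O : F0 ⊆ O) (hM : Bd b M) :
    ∃ (n M' : ℕ) (Z : Finset ℕ), n0 < n ∧ M < M' ∧ Bd b M' ∧ Z.Nonempty ∧
      (∀ y, y ∈ Z.biUnion b ↔ y ∈ un b univ ∧ M ≤ y ∧ y < M') ∧
      (∀ z : Set ℕ, (∀ y, M ≤ y → y < M' → (y ∈ z ↔ y ∈ Z.biUnion b)) → z ∈ U n) ∧
      F0 ⊆ U n := by
  classical
  set x := un b univ with hx
  let cand : Finset ℕ → Set ℕ := fun g => {y | (y < M ∧ y ∈ g) ∨ (M ≤ y ∧ y ∈ x)}
  let F : Set (Set ℕ) := F0 ∪ (cand '' ((Finset.range M).powerset : Set (Finset ℕ)))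
  have hF : F.Finite := hF0.union ((Finset.finite_toSet _).image _)
  have hFo : F ⊆ O := by
    rintro z (hz | ⟨g, -, rfl⟩)
    · exact hF0O hz
    · apply ho
      refine ⟨M, fun y hy => ?_⟩
      constructor
      · rintro (⟨h, -⟩ | ⟨-, h⟩)
        · omega
        · exact h
      · intro h; exact Or.inr ⟨hy, h⟩
  obtain ⟨n, hn, hn0⟩ := (hcov F hF hFo).exists_gt n0
  have hm : ∀ g : Finset ℕ, ∃ m : ℕ, g ∈ (Finset.range M).powerset →
      ∀ w : Set ℕ, (∀ i < m, (i ∈ w ↔ i ∈ cand g)) → w ∈ U n := by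
    intro g
    by_cases hg : g ∈ (Finset.range M).powerset
    · obtain ⟨m, hm⟩ := hU n (cand g) (hn (Or.inr ⟨g, hg, rfl⟩))
      exact ⟨m, fun _ => hm⟩
    · exact ⟨0, fun h => absurd h hg⟩
  choose m hm using hm
  let m1 := (Finset.range M).powerset.sup m
  let i0 := max m1 M
  let M' := (b i0).sup id + 1
  have hi0 : ∀ y ∈ b i0, i0 ≤ y := fun y hy => hb.le hy
  have hne := hb.1 i0
  have hM' : i0 < M' := by
    obtain ⟨y, hy⟩ := hne
    have h1 := hi0 y hy
    have h2 : y ≤ (b i0).sup id := Finset.le_sup (f := id) hy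
    show i0 < (b i0).sup id + 1
    omega
  have hBd : Bd b M' := by
    intro i
    rcases lt_or_ge i0 i with h | h
    · right
      intro y hy
      have : (b i0).sup id < y := by
        obtain ⟨w, hw, hw2⟩ := Finset.exists_mem_eq_sup (b i0) hne id
        rw [hw2]
        exact hb.2 i0 i h w hw y hy
      exact this
    · left
      intro y hy
      have : y ≤ (b i0).sup id := by
        rcases h.lt_or_eq with h' | h'
        · obtain ⟨w, hw⟩ := hne
          have h1 := hb.2 i i0 h' y hy w hw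
          have h2 : w ≤ (b i0).sup id := Finset.le_sup (f := id) hw
          omega
        · rw [h'] at hy
          exact Finset.le_sup (f := id) hy
      show y < (b i0).sup id + 1
      omega
  let Z := (Finset.range (i0 + 1)).filter (fun i => ∀ y ∈ b i, M ≤ y)
  have hZb : ∀ y, y ∈ Z.biUnion b ↔ y ∈ x ∧ M ≤ y ∧ y < M' := by
    intro y
    constructor
    · intro hy
      obtain ⟨i, hi, hy⟩ := Finset.mem_biUnion.1 hy
      have hi' := Finset.mem_filter.1 hi
      refine ⟨⟨i, trivial, hy⟩, hi'.2 y hy, ?_⟩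
      rcases hBd i with h | h
      · exact h y hy
      · exfalso
        have h1 := Finset.mem_range.1 hi'.1
        have h2 := h y hy
        rcases (Nat.lt_succ_iff.1 h1).lt_or_eq with h' | h'
        · obtain ⟨w, hw⟩ := hne
          have h3 := hb.2 i i0 h' y hy w hw
          have h4 : w ≤ (b i0).sup id := Finset.le_sup (f := id) hw
          have h5 : (b i0).sup id + 1 ≤ y := h2
          omega
        · rw [h'] at hy
          have h4 : y ≤ (b i0).sup id := Finset.le_sup (f := id) hy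
          have h5 : (b i0).sup id + 1 ≤ y := h2
          omega
    · rintro ⟨⟨i, -, hy⟩, h1, h2⟩
      refine Finset.mem_biUnion.2 ⟨i, Finset.mem_filter.2 ⟨?_, ?_⟩, hy⟩
      · rw [Finset.mem_range]
        by_contra hcon
        have h3 : i0 < i := by omega
        obtain ⟨w, hw, hw2⟩ := Finset.exists_mem_eq_sup (b i0) hne id
        have h4 := hb.2 i0 i h3 w hw y hy
        have h5 : y < (b i0).sup id + 1 := h2
        rw [hw2] at h5
        have h6 : id w = w := rfl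
        omega
      · rcases hM i with h | h
        · exact absurd (h y hy) (by omega)
        · exact h
  refine ⟨n, M', Z, hn0, lt_of_le_of_lt (le_max_right _ _) hM', hBd, ⟨i0, ?_⟩, hZb, ?_, ?_⟩
  · refine Finset.mem_filter.2 ⟨Finset.mem_range.2 (Nat.lt_succ_self _), fun y hy => ?_⟩
    exact le_trans (le_max_right _ _) (hi0 y hy)
  · intro z hz
    let g := (Finset.range M).filter (fun y => y ∈ z)
    have hg : g ∈ (Finset.range M).powerset := Finset.mem_powerset.2 (Finset.filter_subset _ _)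
    apply hm g hg
    intro i hi
    have him : i < M' := by
      have h1 : m g ≤ m1 := Finset.le_sup (f := m) hg
      have h2 : m1 ≤ i0 := le_max_left _ _
      omega
    by_cases hiM : i < M
    · constructor
      · intro h
        exact Or.inl ⟨hiM, Finset.mem_filter.2 ⟨Finset.mem_range.2 hiM, h⟩⟩
      · rintro (⟨-, h⟩ | ⟨h, -⟩)
        · exact (Finset.mem_filter.1 h).2
        · omega
    · rw [hz i (not_lt.1 hiM) him, hZb]
      constructor
      · rintro ⟨h1, h2, -⟩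
        exact Or.inr ⟨h2, h1⟩
      · rintro (⟨h, -⟩ | ⟨h1, h2⟩)
        · omega
        · exact ⟨h2, h1, him⟩
  · exact fun z hz => hn (Or.inl hz)

theorem bd_sup {b : ℕ → Finset ℕ} (hb : Blk b) (i0 : ℕ) :
    Bd b ((b i0).sup id + 1) ∧ i0 < (b i0).sup id + 1 := by
  have hne := hb.1 i0
  refine ⟨fun i => ?_, ?_⟩
  · rcases lt_or_ge i0 i with h | h
    · right
      intro y hy
      have : (b i0).sup id < y := by
        obtain ⟨w, hw, hw2⟩ := Finset.exists_mem_eq_sup (b i0) hne id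
        rw [hw2]
        exact hb.2 i0 i h w hw y hy
      exact this
    · left
      intro y hy
      have : y ≤ (b i0).sup id := by
        rcases h.lt_or_eq with h' | h'
        · obtain ⟨w, hw⟩ := hne
          have h1 := hb.2 i i0 h' y hy w hw
          have h2 : w ≤ (b i0).sup id := Finset.le_sup (f := id) hw
          omega
        · rw [h'] at hy
          exact Finset.le_sup (f := id) hy
      omega
  · obtain ⟨y, hy⟩ := hne
    have h1 := hb.le hy
    have h2 : y ≤ (b i0).sup id := Finset.le_sup (f := id) hy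
    omega

/-- the outcome of the first phase -/
theorem phase1 {κ : Cardinal.{0}} (hPI : PI κ) (hκ : ℵ₀ < κ) {b : ℕ → Finset ℕ} (hb : Blk b)
    {U : ℕ → Set (Set ℕ)} (hU : ∀ n, Opn (U n))
    {O : Set (Set ℕ)} (hO : #O < κ) (ho : ∀ z, Aeq z (un b univ) → z ∈ O)
    (hcov : ∀ F : Set (Set ℕ), F.Finite → F ⊆ O → {n | F ⊆ U n}.Infinite) :
    ∃ (n M : ℕ → ℕ) (c : ℕ → Finset ℕ), StrictMono n ∧ StrictMono M ∧
      (∀ j, (c j).Nonempty) ∧ (∀ j, ∀ y ∈ c j, M j ≤ y ∧ y < M (j + 1)) ∧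
      (∀ j, InFU b (c j)) ∧
      (∀ j, ∀ z : Set ℕ, (∀ y, M j ≤ y → y < M (j + 1) → (y ∈ z ↔ y ∈ c j)) → z ∈ U (n j)) ∧
      ∀ o ∈ O, ∃ a, ∀ j ≥ a, o ∈ U (n j) := by
  classical
  let P : ℕ × ℕ × ℕ → Prop := fun q => q.1 < q.2.2 ∧ ∃ Z : Finset ℕ, Z.Nonempty ∧
    (∀ y, y ∈ Z.biUnion b ↔ y ∈ un b univ ∧ q.1 ≤ y ∧ y < q.2.2) ∧
    (∀ z : Set ℕ, (∀ y, q.1 ≤ y → y < q.2.2 → (y ∈ z ↔ y ∈ Z.biUnion b)) → z ∈ U q.2.1)
  let A : O ⊕ ℕ → Set (ℕ × ℕ × ℕ) := fun j => Sum.elim (fun o : O => {q | P q ∧ (o : Set ℕ) ∈ U q.2.1})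
    (fun N => {q | P q ∧ N ≤ q.1 ∧ N ≤ q.2.1}) j
  have hJ : #(O ⊕ ℕ) < κ := by
    rw [Cardinal.mk_sum, Cardinal.lift_id, Cardinal.lift_id, Cardinal.mk_nat]
    exact Cardinal.add_lt_of_lt hκ.le hO hκ
  obtain ⟨a, ha, haA⟩ := hPI.trans A hJ (by
    intro F
    have hex : ∀ N, ∃ q : ℕ × ℕ × ℕ, (∀ j ∈ F, q ∈ A j) ∧ N < q.1 := by
      intro N
      let F0 : Set (Set ℕ) := {z | ∃ o : O, Sum.inl o ∈ F ∧ (o : Set ℕ) = z}
      have hF0 : F0.Finite := by
        have h1 : F0 ⊆ (fun j : O ⊕ ℕ => Sum.elim (fun o : O => (o : Set ℕ)) (fun _ => ∅) j) ''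
            (F : Set (O ⊕ ℕ)) := by
          rintro z ⟨o, ho, rfl⟩
          exact ⟨Sum.inl o, ho, rfl⟩
        exact (F.finite_toSet.image _).subset h1
      have hF0O : F0 ⊆ O := by
        rintro z ⟨o, -, rfl⟩
        exact o.2
      let N0 := F.sup (fun j => Sum.elim (fun _ => 0) (fun n => n) j)
      obtain ⟨hM, hM2⟩ := bd_sup hb (max N N0)
      obtain ⟨n, M', Z, h1, h2, h3, h4, h5, h6, h7⟩ := step1 hb hU ho hcov N0
        ((b (max N N0)).sup id + 1) F0 hF0 hF0O hM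
      refine ⟨((b (max N N0)).sup id + 1, n, M'), ?_, lt_of_le_of_lt (le_max_left _ _) hM2⟩
      have hP : P ((b (max N N0)).sup id + 1, n, M') := ⟨h2, Z, h4, h5, h6⟩
      rintro (o | m) hj
      · exact ⟨hP, h7 ⟨o, hj, rfl⟩⟩
      · have h8 : m ≤ N0 := Finset.le_sup (f := fun j : O ⊕ ℕ => Sum.elim (fun _ => 0) (fun n => n) j) hj
        have h9 : N0 ≤ max N N0 := le_max_right _ _
        refine ⟨hP, ?_, ?_⟩
        · exact le_trans h8 (le_trans h9 hM2.le)
        · exact le_trans h8 h1.le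
    apply Set.Infinite.of_image Prod.fst
    rw [Set.infinite_iff_exists_gt]
    intro N
    obtain ⟨q, hq, hN⟩ := hex N
    exact ⟨q.1, ⟨q, hq, rfl⟩, hN⟩)
  obtain ⟨s, hs1, hs2⟩ := exists_incr a ha (fun N q => P q ∧ N ≤ q.1 ∧ N ≤ q.2.1) (by
    intro N
    refine (haA (Sum.inr N)).subset ?_
    rintro q ⟨hq, hq2⟩
    exact ⟨hq, hq2⟩) (fun q => max q.2.2 (q.2.1 + 1))
  have hP : ∀ j, P (s (j + 1)) := fun j => (hs2 j).1
  choose h1 Z h2 h3 h4 using hP
  have hn : StrictMono (fun j => (s (j + 1)).2.1) := by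
    apply strictMono_nat_of_lt_succ
    intro j
    have h5 : max (s (j + 1)).2.2 ((s (j + 1)).2.1 + 1) ≤ (s (j + 1 + 1)).2.1 := (hs2 (j + 1)).2.2
    have h6 := le_trans (le_max_right _ _) h5
    show (s (j + 1)).2.1 < (s (j + 1 + 1)).2.1
    omega
  have hM : ∀ j, (s (j + 1)).2.2 ≤ (s (j + 1 + 1)).1 := by
    intro j
    have h5 : max (s (j + 1)).2.2 ((s (j + 1)).2.1 + 1) ≤ (s (j + 1 + 1)).1 := (hs2 (j + 1)).2.1
    exact le_trans (le_max_left _ _) h5
  refine ⟨fun j => (s (j + 1)).2.1, fun j => (s (j + 1)).1, fun j => (Z j).biUnion b, hn, ?_, ?_,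
    ?_, ?_, ?_, ?_⟩
  · apply strictMono_nat_of_lt_succ
    intro j
    exact lt_of_lt_of_le (h1 j) (hM j)
  · intro j
    obtain ⟨i, hi⟩ := h2 j
    obtain ⟨y, hy⟩ := hb.1 i
    exact ⟨y, Finset.mem_biUnion.2 ⟨i, hi, hy⟩⟩
  · intro j y hy
    have := (h3 j y).1 hy
    exact ⟨this.2.1, lt_of_lt_of_le this.2.2 (hM j)⟩
  · intro j
    exact ⟨Z j, h2 j, rfl⟩
  · intro j z hz
    apply h4 j z
    intro y hy1 hy2
    exact hz y hy1 (lt_of_lt_of_le hy2 (hM j))
  · intro o hoO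
    have h5 : {j | o ∉ U (s (j + 1)).2.1}.Finite := by
      have hinj : Function.Injective (fun j => s (j + 1)) := by
        intro i j hij
        apply hn.injective
        show (s (i + 1)).2.1 = (s (j + 1)).2.1
        have h6 : s (i + 1) = s (j + 1) := hij
        rw [h6]
      refine ((haA (Sum.inl ⟨o, hoO⟩)).preimage hinj.injOn).subset ?_
      intro j hj
      exact ⟨hs1 _, fun h6 => hj h6.2⟩
    obtain ⟨B, hB⟩ := h5.bddAbove
    refine ⟨B + 1, fun j hj => ?_⟩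
    by_contra hcon
    have := hB hcon
    omega

end Pool.Agent.H97Tau
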