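import Pool.Agent.H97Tau.Phase1

/-! Second phase: homogenisation with an idempotent ultrafilter. -/

set_option linter.unusedSectionVars false

namespace Pool.Agent.H97Tau

open Filter Set

/-- all end extensions of `h` belong to `U` -/
def Wn (U : Set (Set ℕ)) (h : Finset ℕ) : Prop :=
  ∀ z : Set ℕ, (∀ y ≤ h.sup id, (y ∈ z ↔ y ∈ h)) → z ∈ U

/-- least element -/
noncomputable def mn (V : Finset ℕ) : ℕ := sInf (V : Set ℕ)

theorem mn_mem {V : Finset ℕ} (h : V.Nonempty) : mn V ∈ V := by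
  have : (V : Set ℕ).Nonempty := h
  exact Finset.mem_coe.1 (Nat.sInf_mem this)

theorem mn_le {V : Finset ℕ} {x : ℕ} (h : x ∈ V) : mn V ≤ x := Nat.sInf_le (Finset.mem_coe.2 h)

/-- bound determined by a list of index blocks -/
def top (l : List (Finset ℕ)) : ℕ := l.foldr (fun T m => max (T.sup id + 1) m) 0

theorem le_top {l : List (Finset ℕ)} {T : Finset ℕ} (h : T ∈ l) : T.sup id + 1 ≤ top l := by
  induction l with
  | nil => simp at h
  | cons a l ih =>
    have h1 : top (a :: l) = max (a.sup id + 1) (top l) := rfl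
    rw [h1]
    rcases List.mem_cons.1 h with h | h
    · rw [h]; exact le_max_left _ _
    · exact le_trans (ih h) (le_max_right _ _)

theorem top_le {l : List (Finset ℕ)} {N : ℕ} (h : ∀ T ∈ l, T.sup id + 1 ≤ N) : top l ≤ N := by
  induction l with
  | nil => exact Nat.zero_le _
  | cons a l ih =>
    have h1 : top (a :: l) = max (a.sup id + 1) (top l) := rfl
    rw [h1]
    exact max_le (h a (List.mem_cons_self ..)) (ih fun T hT => h T (List.mem_cons_of_mem _ hT))

theorem phase2 {U : ℕ → Set (Set ℕ)} (hU : ∀ n, Opn (U n)) {n M : ℕ → ℕ} {c : ℕ → Finset ℕ}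
    (hn : StrictMono n) (hM : StrictMono M) (hc : ∀ j, (c j).Nonempty)
    (hcM : ∀ j, ∀ y ∈ c j, M j ≤ y ∧ y < M (j + 1))
    (hP : ∀ j, ∀ z : Set ℕ, (∀ y, M j ≤ y → y < M (j + 1) → (y ∈ z ↔ y ∈ c j)) → z ∈ U (n j)) :
    ∃ (T : ℕ → Finset ℕ) (m : ℕ → ℕ), Blk T ∧ StrictMono m ∧ (∀ k, ∃ j ≥ k, m k = n j) ∧
      ∀ z, Sub (fun k => (T k).biUnion c) z →
        ∃ (e : Prop) (Z : Set ℕ), Z.Infinite ∧ Aeq z (un (fun k => (T k).biUnion c) Z) ∧
          ∃ K, ∀ k ≥ K, (z ∈ U (m k) ↔ (k ∈ Z ∨ e)) := by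
  classical
  obtain ⟨p, hp1, hp2⟩ := exists_idem
  let In : ℕ → Finset ℕ → Prop := fun i h => {V : Finset ℕ | Wn (U i) (h ∪ V.biUnion c)} ∈ p
  let ε : Finset ℕ → Prop := fun h => {V : Finset ℕ | In (n (mn V)) h} ∈ p
  let ε' : Finset ℕ → Prop := fun h => {V : Finset ℕ | ε (h ∪ V.biUnion c)} ∈ p
  have dec : ∀ (A : Set (Finset ℕ)) (q : Prop), (q ↔ A ∈ p) → {V | V ∈ A ↔ q} ∈ p := by
    intro A q hq
    by_cases h : A ∈ p
    · filter_upwards [h] with V hV
      exact ⟨fun _ => hq.2 h, fun _ => hV⟩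
    · have h' : Aᶜ ∈ p := Ultrafilter.compl_mem_iff_notMem.2 h
      filter_upwards [h'] with V hV
      exact ⟨fun h2 => absurd h2 hV, fun h2 => absurd (hq.1 h2) h⟩
  let S : List (Finset ℕ) → Set (Finset ℕ) := fun l =>
    {V | ∀ h ∈ (Finset.range (M (top l))).powerset, (In (n (mn V)) h ↔ ε h)} ∩
    ({V | ∀ h ∈ (Finset.range (M (top l))).powerset, (ε (h ∪ V.biUnion c) ↔ ε' h)} ∩
    {V | ∀ T ∈ l.toFinset, ∀ h ∈ (Finset.range (M (top l))).powerset,
      (Wn (U (n (mn T))) (h ∪ V.biUnion c) ↔ In (n (mn T)) h)})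
  have hS : ∀ l, S l ∈ p := by
    intro l
    refine inter_mem ?_ (inter_mem ?_ ?_)
    · have : {V : Finset ℕ | ∀ h ∈ (Finset.range (M (top l))).powerset, (In (n (mn V)) h ↔ ε h)}
          = ⋂ h ∈ (Finset.range (M (top l))).powerset, {V | In (n (mn V)) h ↔ ε h} := by
        ext V; simp
      rw [this, Filter.biInter_finset_mem]
      intro h _
      exact dec {V | In (n (mn V)) h} (ε h) Iff.rfl
    · have : {V : Finset ℕ | ∀ h ∈ (Finset.range (M (top l))).powerset,
            (ε (h ∪ V.biUnion c) ↔ ε' h)}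
          = ⋂ h ∈ (Finset.range (M (top l))).powerset, {V | ε (h ∪ V.biUnion c) ↔ ε' h} := by
        ext V; simp
      rw [this, Filter.biInter_finset_mem]
      intro h _
      exact dec {V | ε (h ∪ V.biUnion c)} (ε' h) Iff.rfl
    · have : {V : Finset ℕ | ∀ T ∈ l.toFinset, ∀ h ∈ (Finset.range (M (top l))).powerset,
            (Wn (U (n (mn T))) (h ∪ V.biUnion c) ↔ In (n (mn T)) h)}
          = ⋂ T ∈ l.toFinset, ⋂ h ∈ (Finset.range (M (top l))).powerset,
            {V | Wn (U (n (mn T))) (h ∪ V.biUnion c) ↔ In (n (mn T)) h} := by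
        ext V; simp
      rw [this, Filter.biInter_finset_mem]
      intro T _
      rw [Filter.biInter_finset_mem]
      intro h _
      exact dec {V | Wn (U (n (mn T))) (h ∪ V.biUnion c)} (In (n (mn T)) h) Iff.rfl
  obtain ⟨T, hT, hTS⟩ := fusion hp1 hp2 S hS
  let bb : ℕ → Finset ℕ := fun k => (T k).biUnion c
  let hist : ℕ → List (Finset ℕ) := fun i => (List.range i).map T
  have hmem : ∀ {i k : ℕ}, i < k → T i ∈ hist k := fun {i k} h =>
    List.mem_map.2 ⟨i, List.mem_range.2 h, rfl⟩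
  -- numerical facts
  have f1 : ∀ k, k ≤ mn (T k) := fun k => hT.le (mn_mem (hT.1 k))
  have f2 : ∀ k, ∀ y ∈ bb k, M (mn (T k)) ≤ y := by
    intro k y hy
    obtain ⟨j, hj, hyj⟩ := Finset.mem_biUnion.1 hy
    exact le_trans (hM.monotone (mn_le hj)) (hcM j y hyj).1
  have f3 : ∀ k, ∀ y ∈ bb k, y < M ((T k).sup id + 1) := by
    intro k y hy
    obtain ⟨j, hj, hyj⟩ := Finset.mem_biUnion.1 hy
    have h1 : j ≤ (T k).sup id := Finset.le_sup (f := id) hj
    exact lt_of_lt_of_le (hcM j y hyj).2 (hM.monotone (by omega))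
  have f4 : ∀ i k, i < k → (T i).sup id + 1 ≤ mn (T k) := by
    intro i k hik
    obtain ⟨w, hw, hw2⟩ := Finset.exists_mem_eq_sup (T i) (hT.1 i) id
    rw [hw2]
    exact hT.2 i k hik w hw _ (mn_mem (hT.1 k))
  have f5 : ∀ k, top (hist k) ≤ mn (T k) := by
    intro k
    apply top_le
    intro A hA
    obtain ⟨i, hi, rfl⟩ := List.mem_map.1 hA
    exact f4 i k (List.mem_range.1 hi)
  have f6 : ∀ k k', k ≤ k' → top (hist k) ≤ top (hist k') := by
    intro k k' hk
    apply top_le
    intro A hA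
    obtain ⟨i, hi, rfl⟩ := List.mem_map.1 hA
    exact le_top (hmem (lt_of_lt_of_le (List.mem_range.1 hi) hk))
  have f7 : ∀ k, k ≤ M k := fun k => hM.le_apply
  have f8 : ∀ k, k ≤ top (hist k) := by
    intro k
    cases k with
    | zero => exact Nat.zero_le _
    | succ k =>
      have h1 : (T k).sup id + 1 ≤ top (hist (k + 1)) := le_top (hmem (Nat.lt_succ_self k))
      have h2 : mn (T k) ≤ (T k).sup id := Finset.le_sup (f := id) (mn_mem (hT.1 k))
      have h3 := f1 k
      omega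
  have f9 : ∀ k, ∀ y ∈ bb k, k ≤ y := fun k y hy =>
    le_trans (f1 k) (le_trans (f7 _) (f2 k y hy))
  have f10 : ∀ k, (bb k).Nonempty := by
    intro k
    obtain ⟨j, hj⟩ := hT.1 k
    obtain ⟨y, hy⟩ := hc j
    exact ⟨y, Finset.mem_biUnion.2 ⟨j, hj, hy⟩⟩
  refine ⟨T, fun k => n (mn (T k)), hT, ?_, fun k => ⟨mn (T k), f1 k, rfl⟩, ?_⟩
  · intro i k hik
    apply hn
    have h1 := f4 i k hik
    have h2 : mn (T i) ≤ (T i).sup id := Finset.le_sup (f := id) (mn_mem (hT.1 i))
    omega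
  rintro z ⟨Z, hZ, N, hN⟩
  -- starting point
  let k0 := N
  have hk0 : N ≤ M (top (hist k0)) := le_trans (f8 k0) (f7 _)
  let h0 : Finset ℕ := (Finset.range (M (top (hist k0)))).filter (fun y => y ∈ z)
  let J : ℕ → Finset ℕ := fun k => (Finset.range k).filter (fun l => k0 ≤ l ∧ l ∈ Z)
  let Dk : ℕ → Finset ℕ := fun k => h0 ∪ ((J k).biUnion T).biUnion c
  have memD : ∀ k y, y ∈ Dk k ↔ (y < M (top (hist k0)) ∧ y ∈ z) ∨
      ∃ l, l < k ∧ k0 ≤ l ∧ l ∈ Z ∧ y ∈ bb l := by
    intro k y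
    simp only [Dk, h0, J, bb, Finset.mem_union, Finset.mem_filter, Finset.mem_range,
      Finset.mem_biUnion]
    constructor
    · rintro (h | ⟨j, ⟨l, ⟨h1, h2, h3⟩, h4⟩, h5⟩)
      · exact Or.inl h
      · exact Or.inr ⟨l, h1, h2, h3, j, h4, h5⟩
    · rintro (h | ⟨l, h1, h2, h3, j, h4, h5⟩)
      · exact Or.inl h
      · exact Or.inr ⟨j, ⟨l, ⟨h1, h2, h3⟩, h4⟩, h5⟩
  -- description of `z` below the block `k`
  have hD : ∀ k, k0 ≤ k → ∀ y, y < M (mn (T k)) → (y ∈ z ↔ y ∈ Dk k) := by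
    intro k hk y hy
    rw [memD]
    by_cases hy0 : y < M (top (hist k0))
    · constructor
      · intro h; exact Or.inl ⟨hy0, h⟩
      · rintro (h | ⟨l, h1, h2, h3, h4⟩)
        · exact h.2
        · exfalso
          have h5 := f2 l y h4
          have h6 : M (top (hist k0)) ≤ M (mn (T l)) :=
            hM.monotone (le_trans (f6 k0 l h2) (f5 l))
          omega
    · have hyN : N ≤ y := le_trans hk0 (not_lt.1 hy0)
      rw [hN y hyN]
      constructor
      · rintro ⟨l, hl, hyl⟩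
        refine Or.inr ⟨l, ?_, ?_, hl, hyl⟩
        · by_contra hcon
          have h5 := f2 l y hyl
          have h6 : M (mn (T k)) ≤ M (mn (T l)) := by
            apply hM.monotone
            rcases (not_lt.1 hcon).lt_or_eq with h | h
            · have h7 := f4 k l h
              have h8 : mn (T k) ≤ (T k).sup id := Finset.le_sup (f := id) (mn_mem (hT.1 k))
              omega
            · rw [h]
          omega
        · by_contra hcon
          have h5 := f3 l y hyl
          have h6 : M ((T l).sup id + 1) ≤ M (top (hist k0)) :=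
            hM.monotone (le_top (hmem (not_le.1 hcon)))
          omega
      · rintro (h | ⟨l, h1, h2, h3, h4⟩)
        · exact absurd h.1 hy0
        · exact ⟨l, h3, h4⟩
  have hDr : ∀ k, k0 ≤ k → Dk k ∈ (Finset.range (M (top (hist k)))).powerset := by
    intro k hk
    rw [Finset.mem_powerset]
    intro y hy
    rw [Finset.mem_range]
    rcases (memD k y).1 hy with h | ⟨l, h1, h2, h3, h4⟩
    · exact lt_of_lt_of_le h.1 (hM.monotone (f6 k0 k hk))
    · exact lt_of_lt_of_le (f3 l y h4) (hM.monotone (le_top (hmem h1)))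
  have hh0 : h0 ∈ (Finset.range (M (top (hist k0)))).powerset := by
    rw [Finset.mem_powerset]; exact Finset.filter_subset _ _
  obtain ⟨k1, hk1, hk01⟩ := hZ.exists_gt k0
  refine ⟨ε' h0, Z, hZ, ⟨N, hN⟩, k1 + 1, ?_⟩
  intro k hk
  by_cases hkZ : k ∈ Z
  · refine ⟨fun _ => Or.inl hkZ, fun _ => ?_⟩
    apply hP
    intro y hy1 hy2
    have hyN : N ≤ y := by
      have h1 : k0 ≤ mn (T k) := by have := f1 k; omega
      exact le_trans h1 (le_trans (f7 _) hy1)
    rw [hN y hyN]
    constructor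
    · rintro ⟨l, hl, hyl⟩
      obtain ⟨j, hj, hyj⟩ := Finset.mem_biUnion.1 hyl
      have h1 := hcM j y hyj
      have h2 : j = mn (T k) := by
        have h3 : M j < M (mn (T k) + 1) := lt_of_le_of_lt h1.1 hy2
        have h4 : M (mn (T k)) < M (j + 1) := lt_of_le_of_lt hy1 h1.2
        have h5 := hM.lt_iff_lt.1 h3
        have h6 := hM.lt_iff_lt.1 h4
        omega
      rw [h2] at hyj
      exact hyj
    · intro h
      exact ⟨k, hkZ, Finset.mem_biUnion.2 ⟨mn (T k), mn_mem (hT.1 k), h⟩⟩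
  · have hk0k : k0 ≤ k := by omega
    -- the state is decided
    have e1 : In (n (mn (T k))) (Dk k) ↔ ε (Dk k) := by
      have h1 := hTS k {k} (Finset.singleton_nonempty _)
        (fun j hj => by rw [Finset.mem_singleton.1 hj])
      rw [Finset.singleton_biUnion] at h1
      exact h1.1 _ (hDr k hk0k)
    have hJ : (J k).Nonempty :=
      ⟨k1, Finset.mem_filter.2 ⟨Finset.mem_range.2 (by omega), by omega, hk1⟩⟩
    have e2 : ε (Dk k) ↔ ε' h0 := by
      have h1 := hTS k0 (J k) hJ (fun j hj => (Finset.mem_filter.1 hj).2.1)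
      exact h1.2.1 h0 hh0
    -- extension by the blocks between `k` and `L`
    have e3 : ∀ L, L ∈ Z → k < L →
        (Wn (U (n (mn (T k)))) (Dk (L + 1)) ↔ In (n (mn (T k))) (Dk k)) := by
      intro L hL hkL
      let V := (Finset.range (L + 1)).filter (fun l => k + 1 ≤ l ∧ l ∈ Z)
      have hV : V.Nonempty :=
        ⟨L, Finset.mem_filter.2 ⟨Finset.mem_range.2 (by omega), by omega, hL⟩⟩
      have h1 := hTS (k + 1) V hV (fun j hj => (Finset.mem_filter.1 hj).2.1)
      have h2 := h1.2.2 (T k) (List.mem_toFinset.2 (hmem (Nat.lt_succ_self k))) (Dk k) (by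
        have h3 := hDr k hk0k
        rw [Finset.mem_powerset] at h3 ⊢
        intro y hy
        have h4 := Finset.mem_range.1 (h3 hy)
        rw [Finset.mem_range]
        exact lt_of_lt_of_le h4 (hM.monotone (f6 k (k + 1) (by omega))))
      have h3 : Dk (L + 1) = Dk k ∪ (V.biUnion T).biUnion c := by
        ext y
        rw [memD (L + 1) y, Finset.mem_union (s := Dk k), memD k y]
        have h4 : y ∈ (V.biUnion T).biUnion c ↔ ∃ l, l < L + 1 ∧ k + 1 ≤ l ∧ l ∈ Z ∧ y ∈ bb l := by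
          simp only [V, bb, Finset.mem_filter, Finset.mem_range, Finset.mem_biUnion]
          constructor
          · rintro ⟨j, ⟨l, ⟨h1, h2, h3⟩, h4⟩, h5⟩
            exact ⟨l, h1, h2, h3, j, h4, h5⟩
          · rintro ⟨l, h1, h2, h3, j, h4, h5⟩
            exact ⟨j, ⟨l, ⟨h1, h2, h3⟩, h4⟩, h5⟩
        rw [h4]
        constructor
        · rintro (h | ⟨l, h5, h6, h7, h8⟩)
          · exact Or.inl (Or.inl h)
          · rcases lt_trichotomy l k with h9 | h9 | h9
            · exact Or.inl (Or.inr ⟨l, h9, h6, h7, h8⟩)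
            · exact absurd (h9 ▸ h7) hkZ
            · exact Or.inr ⟨l, h5, h9, h7, h8⟩
        · rintro ((h | ⟨l, h5, h6, h7, h8⟩) | ⟨l, h5, h6, h7, h8⟩)
          · exact Or.inl h
          · exact Or.inr ⟨l, by omega, h6, h7, h8⟩
          · exact Or.inr ⟨l, h5, by omega, h7, h8⟩
      rw [h3]
      exact h2
    -- `z` is an end extension of the states
    have e4 : ∀ L, L ∈ Z → k < L → ∀ y ≤ (Dk (L + 1)).sup id, (y ∈ z ↔ y ∈ Dk (L + 1)) := by
      intro L hL hkL y hy
      apply hD (L + 1) (by omega)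
      have h1 : (Dk (L + 1)).sup id < M (top (hist (L + 1))) := by
        have h2 := hDr (L + 1) (by omega)
        rw [Finset.mem_powerset] at h2
        have h3 : (Dk (L + 1)).Nonempty := by
          obtain ⟨w, hw⟩ := f10 L
          exact ⟨w, (memD _ _).2 (Or.inr ⟨L, by omega, by omega, hL, hw⟩)⟩
        obtain ⟨w, hw, hw2⟩ := Finset.exists_mem_eq_sup _ h3 id
        rw [hw2]
        exact Finset.mem_range.1 (h2 hw)
      have h2 := hM.monotone (f5 (L + 1))
      omega
    have e5 : z ∈ U (n (mn (T k))) ↔ In (n (mn (T k))) (Dk k) := by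
      constructor
      · intro hz
        obtain ⟨m, hm⟩ := hU _ z hz
        obtain ⟨L, hL, hL2⟩ := hZ.exists_gt (max m k)
        have hkL : k < L := lt_of_le_of_lt (le_max_right _ _) hL2
        rw [← e3 L hL hkL]
        intro w hw
        apply hm
        intro i hi
        have h1 : i ≤ (Dk (L + 1)).sup id := by
          obtain ⟨w', hw'⟩ := f10 L
          have h2 : w' ∈ Dk (L + 1) := (memD _ _).2 (Or.inr ⟨L, by omega, by omega, hL, hw'⟩)
          have h3 : w' ≤ (Dk (L + 1)).sup id := Finset.le_sup (f := id) h2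
          have h4 := f9 L w' hw'
          have h5 : m < L := lt_of_le_of_lt (le_max_left _ _) hL2
          omega
        rw [hw i h1, e4 L hL hkL i h1]
      · intro h
        obtain ⟨L, hL, hkL⟩ := hZ.exists_gt k
        rw [← e3 L hL hkL] at h
        exact h z (e4 L hL hkL)
    rw [e5, e1, e2]
    constructor
    · exact fun h => Or.inr h
    · rintro (h | h)
      · exact absurd h hkZ
      · exact h

end Pool.Agent.H97Tau
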