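import Pool.Agent.H97Tau.Cond

/-! The case of a family of functions which is not dominating. -/

set_option linter.unusedSectionVars false

namespace Pool.Agent.H97Tau

open Filter Set
open scoped Cardinal

/-- a cover of the cofinite sets captures all sets containing a long interval -/
theorem step_triv {U : ℕ → Set (Set ℕ)} (hU : ∀ n, Opn (U n))
    (hcov : ∀ F : Set (Set ℕ), F.Finite → (∀ z ∈ F, zᶜ.Finite) → {n | F ⊆ U n}.Infinite) (x : ℕ) :
    ∃ y n : ℕ, x ≤ n ∧ ∀ z : Set ℕ, (∀ i, x ≤ i → i < y → i ∈ z) → z ∈ U n := by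
  classical
  let cand : Finset ℕ → Set ℕ := fun g => {y | (y < x ∧ y ∈ g) ∨ x ≤ y}
  obtain ⟨n, hn, hn0⟩ := (hcov (cand '' ((Finset.range x).powerset : Set (Finset ℕ)))
    ((Finset.finite_toSet _).image _) (by
      rintro _ ⟨g, -, rfl⟩
      refine (Set.finite_lt_nat x).subset ?_
      intro y hy
      by_contra hcon
      exact hy (Or.inr (not_lt.1 hcon)))).exists_gt x
  have hm : ∀ g : Finset ℕ, ∃ m : ℕ, g ∈ (Finset.range x).powerset →
      ∀ w : Set ℕ, (∀ i < m, (i ∈ w ↔ i ∈ cand g)) → w ∈ U n := by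
    intro g
    by_cases hg : g ∈ (Finset.range x).powerset
    · obtain ⟨m, hm⟩ := hU n (cand g) (hn ⟨g, hg, rfl⟩)
      exact ⟨m, fun _ => hm⟩
    · exact ⟨0, fun h => absurd h hg⟩
  choose m hm using hm
  refine ⟨(Finset.range x).powerset.sup m, n, hn0.le, fun z hz => ?_⟩
  let g := (Finset.range x).filter (fun y => y ∈ z)
  have hg : g ∈ (Finset.range x).powerset := Finset.mem_powerset.2 (Finset.filter_subset _ _)
  apply hm g hg
  intro i hi
  have him : i < (Finset.range x).powerset.sup m :=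
    lt_of_lt_of_le hi (Finset.le_sup (f := m) hg)
  by_cases hix : i < x
  · constructor
    · intro h
      exact Or.inl ⟨hix, Finset.mem_filter.2 ⟨Finset.mem_range.2 hix, h⟩⟩
    · rintro (⟨-, h⟩ | h)
      · exact (Finset.mem_filter.1 h).2
      · omega
  · exact ⟨fun _ => Or.inr (not_lt.1 hix), fun _ => hz i (not_lt.1 hix) him⟩

theorem exists_max_chain (E : Set ℕ) (hE : E.Infinite) : ∃ C : Set (Set ℕ),
    (∀ c ∈ C, c ⊆ E ∧ c.Infinite) ∧ (∀ c ∈ C, ∀ d ∈ C, Al c d ∨ Al d c) ∧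
    (∀ z : Set ℕ, zᶜ.Finite → E ∩ z ∈ C) ∧
    ∀ a ⊆ E, a.Infinite → ∃ c ∈ C, (a \ c).Infinite := by
  classical
  let S : Set (Set (Set ℕ)) := {C | (∀ c ∈ C, c ⊆ E ∧ c.Infinite) ∧
    ∀ c ∈ C, ∀ d ∈ C, Al c d ∨ Al d c}
  obtain ⟨C, hC⟩ := zorn_subset S (by
    intro c hcS hc
    refine ⟨⋃₀ c, ⟨?_, ?_⟩, fun s hs => subset_sUnion_of_mem hs⟩
    · rintro x ⟨s, hs, hx⟩
      exact (hcS hs).1 x hx
    · rintro x ⟨s, hs, hx⟩ y ⟨t, ht, hy⟩
      rcases hc.total hs ht with h | h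
      · exact (hcS ht).2 x (h hx) y hy
      · exact (hcS hs).2 x hx y (h hy))
  have hmax : ∀ d : Set ℕ, d ⊆ E → d.Infinite → (∀ c ∈ C, Al c d ∨ Al d c) → d ∈ C := by
    intro d hd hdi hdc
    have h1 : insert d C ∈ S := by
      refine ⟨?_, ?_⟩
      · rintro x (rfl | hx)
        · exact ⟨hd, hdi⟩
        · exact hC.prop.1 x hx
      · rintro x (rfl | hx) y (rfl | hy)
        · exact Or.inl (Aeq.al (Aeq.refl _))
        · exact (hdc y hy).symm
        · exact hdc x hx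
        · exact hC.prop.2 x hx y hy
    exact hC.le_of_ge h1 (subset_insert _ _) (mem_insert _ _)
  refine ⟨C, hC.prop.1, hC.prop.2, ?_, ?_⟩
  · intro z hz
    apply hmax _ inter_subset_left
    · refine (hE.sdiff hz).mono ?_
      rintro x ⟨h1, h2⟩
      exact ⟨h1, not_not.1 h2⟩
    · intro c hc
      left
      obtain ⟨B, hB⟩ := hz.bddAbove
      refine ⟨B + 1, fun x hx hxc => ⟨(hC.prop.1 c hc).1 hxc, ?_⟩⟩
      by_contra hcon
      have := hB hcon
      omega
  · intro a haE ha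
    by_contra hcon
    push Not at hcon
    have hal : ∀ a' ⊆ a, ∀ c ∈ C, Al a' c := by
      intro a' ha' c hc
      obtain ⟨B, hB⟩ := (hcon c hc).bddAbove
      refine ⟨B + 1, fun x hx hxa => ?_⟩
      by_contra hcon2
      have := hB ⟨ha' hxa, hcon2⟩
      omega
    have hnx : ∀ n, ∃ y ∈ a, n < y := fun n => ha.exists_gt n
    choose g hg1 hg2 using hnx
    let o : ℕ → ℕ := fun n => Nat.rec (g 0) (fun _ p => g p) n
    have ho : ∀ n, o (n + 1) = g (o n) := fun n => rfl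
    have hom : StrictMono o := strictMono_nat_of_lt_succ fun n => by rw [ho]; exact hg2 _
    have hoa : ∀ n, o n ∈ a := by
      intro n
      cases n with
      | zero => exact hg1 0
      | succ n => rw [ho]; exact hg1 _
    have hm : ∀ s : ℕ, range (fun n => o (2 * n + s)) ∈ C := by
      intro s
      have hsub : range (fun n => o (2 * n + s)) ⊆ a := by
        rintro _ ⟨n, rfl⟩; exact hoa _
      apply hmax _ (hsub.trans haE)
      · apply Set.infinite_range_of_injective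
        intro m n hmn
        have := hom.injective hmn
        omega
      · exact fun c hc => Or.inr (hal _ hsub c hc)
    have hdis : ∀ s t : ℕ, s % 2 ≠ t % 2 →
        ¬ Al (range (fun n => o (2 * n + s))) (range (fun n => o (2 * n + t))) := by
      rintro s t hst ⟨N, hN⟩
      have h1 : N ≤ o (2 * N + s) := le_trans (by omega) hom.le_apply
      obtain ⟨n, hn⟩ := hN _ h1 ⟨N, rfl⟩
      have := hom.injective hn
      omega
    rcases hC.prop.2 _ (hm 0) _ (hm 1) with h | h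
    · exact hdis 0 1 (by norm_num) h
    · exact hdis 1 0 (by norm_num) h

theorem exists_family_triv {κ : Cardinal.{0}} (hκ : ℵ₀ ≤ κ) {W : Type} (hW : #W ≤ κ)
    (U : W → ℕ → Set (Set ℕ)) (hU : ∀ w n, Opn (U w n))
    (hnd : ∀ (Ξ : Type) (f : Ξ → ℕ → ℕ), #Ξ ≤ κ → ∃ g : ℕ → ℕ, ∀ ξ N, ∃ n ≥ N, f ξ n < g n) :
    ∃ (X : Set (Set ℕ)) (E : Set ℕ),
    (∀ w, (∀ F : Set (Set ℕ), F.Finite → F ⊆ X → {n | F ⊆ U w n}.Infinite) →
      ∃ m : ℕ → ℕ, StrictMono m ∧ (∀ z ∈ X, {k | z ∈ U w (m k)}.Infinite) ∧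
        ∀ z ∈ X, ∀ y ∈ X, (∃ K, ∀ k ≥ K, z ∈ U w (m k) → y ∈ U w (m k)) ∨
          ∃ K, ∀ k ≥ K, y ∈ U w (m k) → z ∈ U w (m k)) ∧
    X.Nonempty ∧ (∀ z ∈ X, (E ∩ z).Infinite) ∧ (∀ z ∈ X, ∀ y ∈ X, Al (E ∩ z) (E ∩ y) ∨ Al (E ∩ y) (E ∩ z)) ∧
    ∀ a ⊆ E, a.Infinite → ∃ z ∈ X, (a \ z).Infinite := by
  classical
  let Cw : W → Prop := fun w => ∀ F : Set (Set ℕ), F.Finite → (∀ z ∈ F, zᶜ.Finite) →
    {n | F ⊆ U w n}.Infinite
  have hst : ∀ w x, ∃ y n : ℕ, Cw w → x ≤ n ∧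
      ∀ z : Set ℕ, (∀ i, x ≤ i → i < y → i ∈ z) → z ∈ U w n := by
    intro w x
    by_cases hw : Cw w
    · obtain ⟨y, n, h⟩ := step_triv (hU w) hw x
      exact ⟨y, n, fun _ => h⟩
    · exact ⟨0, 0, fun h => absurd h hw⟩
  choose f nn hf using hst
  have hFin : #(Finset W) ≤ κ := by
    by_cases hinf : Infinite W
    · rw [Cardinal.mk_finset_of_infinite]; exact hW
    · have := not_infinite_iff_finite.1 hinf
      exact (Cardinal.mk_le_aleph0).trans hκ
  obtain ⟨g, hg⟩ := hnd (Finset W) (fun s x => s.sup (fun w => f w x)) hFin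
  obtain ⟨h', h'1, h'2, h'3⟩ : ∃ h' : ℕ → ℕ, (∀ x, x < h' x) ∧ (∀ x, g x ≤ h' x) ∧ Monotone h' := by
    refine ⟨fun x => (Finset.range (x + 1)).sup g + x + 1, fun x => ?_, fun x => ?_,
      fun x y hxy => ?_⟩
    · show x < _ + x + 1; omega
    · have : g x ≤ (Finset.range (x + 1)).sup g :=
        Finset.le_sup (Finset.mem_range.2 (Nat.lt_succ_self x))
      show g x ≤ _ + x + 1
      omega
    · have : (Finset.range (x + 1)).sup g ≤ (Finset.range (y + 1)).sup g :=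
        Finset.sup_mono (Finset.range_mono (by omega))
      show _ + x + 1 ≤ _ + y + 1
      omega
  obtain ⟨gg, hgg0, hgg⟩ : ∃ gg : ℕ → ℕ, gg 0 = 0 ∧ ∀ n, gg (n + 1) = h' (gg n) :=
    ⟨fun n => Nat.rec 0 (fun _ p => h' p) n, rfl, fun n => rfl⟩
  have hggm : StrictMono gg := strictMono_nat_of_lt_succ fun n => by rw [hgg]; exact h'1 _
  have hidx : ∀ x, ∃ i, gg i ≤ x ∧ x < gg (i + 1) := by
    intro x
    refine Classical.byContradiction fun hcon => ?_
    push Not at hcon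
    have h1 : ∀ i, gg i ≤ x := by
      intro i
      induction i with
      | zero => rw [hgg0]; exact Nat.zero_le _
      | succ i ih => exact hcon i ih
    have h2 := h1 (x + 1)
    have h3 : x + 1 ≤ gg (x + 1) := hggm.le_apply
    omega
  let Y : ℕ → Set ℕ := fun r => {y | ∃ i, i % 3 = r ∧ gg i ≤ y ∧ y < gg (i + 2)}
  have clA : ∀ s : Finset W, ∃ r < 3, ∀ N, ∃ x ≥ N, ∀ y, x ≤ y → y < s.sup (fun w => f w x) →
      y ∈ Y r := by
    intro s
    refine Classical.byContradiction fun hcon => ?_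
    push Not at hcon
    obtain ⟨N0, hN0⟩ := hcon 0 (by norm_num)
    obtain ⟨N1, hN1⟩ := hcon 1 (by norm_num)
    obtain ⟨N2, hN2⟩ := hcon 2 (by norm_num)
    obtain ⟨x, hx, hx2⟩ := hg s (max N0 (max N1 N2))
    obtain ⟨i, hi1, hi2⟩ := hidx x
    have hin : ∀ y, x ≤ y → y < s.sup (fun w => f w x) → y ∈ Y (i % 3) := by
      intro y h1 h2
      refine ⟨i, rfl, le_trans hi1 h1, ?_⟩
      have h3 := h'2 x
      have h4 : h' x ≤ h' (gg (i + 1)) := h'3 hi2.le
      rw [← hgg (i + 1)] at h4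
      exact lt_of_lt_of_le h2 (le_trans hx2.le (le_trans h3 h4))
    have hx' := hx
    have hlt : i % 3 < 3 := Nat.mod_lt _ (by norm_num)
    have a0 : N0 ≤ x := le_trans (le_max_left _ _) hx
    have a1 : N1 ≤ x := le_trans (le_trans (le_max_left _ _) (le_max_right _ _)) hx
    have a2 : N2 ≤ x := le_trans (le_trans (le_max_right _ _) (le_max_right _ _)) hx
    interval_cases hr : i % 3
    · obtain ⟨y, h1, h2, h3⟩ := hN0 x a0
      exact h3 (hin y h1 h2)
    · obtain ⟨y, h1, h2, h3⟩ := hN1 x a1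
      exact h3 (hin y h1 h2)
    · obtain ⟨y, h1, h2, h3⟩ := hN2 x a2
      exact h3 (hin y h1 h2)
  have clB : ∃ r < 3, ∀ w N, ∃ x ≥ N, ∀ y, x ≤ y → y < f w x → y ∈ Y r := by
    refine Classical.byContradiction fun hcon => ?_
    push Not at hcon
    have h3 : ∀ r, ∃ w : Option W, ∃ N : ℕ, r < 3 → ∃ w', w = some w' ∧ ∀ x ≥ N,
        ∃ y, x ≤ y ∧ y < f w' x ∧ y ∉ Y r := by
      intro r
      by_cases hr : r < 3
      · obtain ⟨w, N, h⟩ := hcon r hr
        exact ⟨some w, N, fun _ => ⟨w, rfl, h⟩⟩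
      · exact ⟨none, 0, fun h => absurd h hr⟩
    choose w N hw using h3
    obtain ⟨r, hr, hr2⟩ := clA ((Finset.range 3).biUnion (fun r => (w r).toFinset))
    obtain ⟨w', hw', hN⟩ := hw r hr
    obtain ⟨x, hx, hx2⟩ := hr2 (N r)
    obtain ⟨y, h1, h2, h3⟩ := hN x hx
    apply h3
    apply hx2 y h1
    refine lt_of_lt_of_le h2 ?_
    apply Finset.le_sup (f := fun w => f w x)
    refine Finset.mem_biUnion.2 ⟨r, Finset.mem_range.2 hr, ?_⟩
    rw [Option.mem_toFinset, hw']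
    rfl
  obtain ⟨r, hr, hB⟩ := clB
  have hE : ((Y r)ᶜ).Infinite := by
    rw [Set.infinite_iff_exists_gt]
    intro n
    refine ⟨gg (3 * n + r + 2), ?_, ?_⟩
    · rintro ⟨j, hj, h1, h2⟩
      have h3 := hggm.le_iff_le.1 h1
      have h4 := hggm.lt_iff_lt.1 h2
      omega
    · have : 3 * n + r + 2 ≤ gg (3 * n + r + 2) := hggm.le_apply
      omega
  obtain ⟨C, hC1, hC2, hC3, hC4⟩ := exists_max_chain _ hE
  have hcof : ∀ z : Set ℕ, zᶜ.Finite → z ∈ {z | (Y r \ z).Finite ∧ (Y r)ᶜ ∩ z ∈ C} := by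
    intro z hz
    exact ⟨hz.subset fun x hx => hx.2, hC3 z hz⟩
  refine ⟨{z | (Y r \ z).Finite ∧ (Y r)ᶜ ∩ z ∈ C}, (Y r)ᶜ, ?_, ⟨univ, hcof univ (by simp)⟩, ?_, ?_, ?_⟩
  · intro w hcov
    have hCw : Cw w := fun F hF hF2 => hcov F hF fun z hz => hcof z (hF2 z hz)
    have h1 : ∀ N, ∃ x ≥ N, ∀ y, x ≤ y → y < f w x → y ∈ Y r := hB w
    choose x hx1 hx2 using h1
    let xs : ℕ → ℕ := fun n => Nat.rec (x 0) (fun _ p => x (max (p + 1) (nn w p + 1))) n
    have hxs : ∀ n, xs (n + 1) = x (max (xs n + 1) (nn w (xs n) + 1)) := fun n => rfl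
    have hxs2 : ∀ n, ∀ y, xs n ≤ y → y < f w (xs n) → y ∈ Y r := by
      intro n
      cases n with
      | zero => exact hx2 0
      | succ n => rw [hxs]; exact hx2 _
    have hxm : StrictMono xs := strictMono_nat_of_lt_succ fun n => by
      have := hx1 (max (xs n + 1) (nn w (xs n) + 1))
      rw [hxs]
      have h2 : xs n + 1 ≤ max (xs n + 1) (nn w (xs n) + 1) := le_max_left _ _
      omega
    have hall : ∀ z ∈ {z | (Y r \ z).Finite ∧ (Y r)ᶜ ∩ z ∈ C}, ∃ K, ∀ k ≥ K,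
        z ∈ U w (nn w (xs k)) := by
      rintro z ⟨hz, -⟩
      obtain ⟨B, hB⟩ := hz.bddAbove
      refine ⟨B + 1, fun k hk => (hf w (xs k) hCw).2 z fun i hi1 hi2 => ?_⟩
      by_contra hcon
      have h2 := hB ⟨hxs2 k i hi1 hi2, hcon⟩
      have h3 : k ≤ xs k := hxm.le_apply
      omega
    refine ⟨fun k => nn w (xs k), ?_, ?_, ?_⟩
    · apply strictMono_nat_of_lt_succ
      intro n
      have h2 := (hf w (xs (n + 1)) hCw).1
      have h3 := hx1 (max (xs n + 1) (nn w (xs n) + 1))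
      rw [← hxs] at h3
      have h4 : nn w (xs n) + 1 ≤ max (xs n + 1) (nn w (xs n) + 1) := le_max_right _ _
      show nn w (xs n) < nn w (xs (n + 1))
      omega
    · intro z hz
      obtain ⟨K, hK⟩ := hall z hz
      rw [Set.infinite_iff_exists_gt]
      intro n
      exact ⟨max K (n + 1), hK _ (le_max_left _ _),
        lt_of_lt_of_le (Nat.lt_succ_self n) (le_max_right _ _)⟩
    · intro z _ y hy
      obtain ⟨K, hK⟩ := hall y hy
      exact Or.inl ⟨K, fun k hk _ => hK k hk⟩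
  · intro z hz
    exact (hC1 _ hz.2).2
  · intro z hz y hy
    exact hC2 _ hz.2 _ hy.2
  · intro a haE ha
    obtain ⟨c, hc, hac⟩ := hC4 a haE ha
    have h1 : (Y r)ᶜ ∩ (c ∪ Y r) = c := by
      ext x
      constructor
      · rintro ⟨h1, h2 | h2⟩
        · exact h2
        · exact absurd h2 h1
      · intro hx
        exact ⟨(hC1 c hc).1 hx, Or.inl hx⟩
    refine ⟨c ∪ Y r, ⟨?_, ?_⟩, ?_⟩
    · have : Y r \ (c ∪ Y r) = ∅ := by
        ext x
        constructor
        · rintro ⟨h1, h2⟩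
          exact absurd (Or.inr h1) h2
        · exact fun h => absurd h (notMem_empty x)
      rw [this]; exact finite_empty
    · rw [h1]; exact hc
    · refine hac.mono ?_
      rintro x ⟨h2, h3⟩
      refine ⟨h2, ?_⟩
      rintro (h4 | h4)
      · exact h3 h4
      · exact haE h2 h4

end Pool.Agent.H97Tau
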